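import Pool.Agent.TH853.Fac.Vand
import Pool.Agent.H537R6.U_SCL
import Pool.Agent.H537R6.U_RAD

set_option autoImplicit false

/-!
# Programs whose results are small at the roots of many irreducible factors
-/

namespace Pool.Agent.TH853.Fac

open Polynomial Pool.Agent.H537R6

/-- the embedding of `ℤ` in `ℚ` -/
noncomputable abbrev ψ : ℤ →+* ℚ := Int.castRingHom ℚ

theorem map_ψ (p : ℤ[X]) : (p.map ψ).map (algebraMap ℚ ℂ) = p.map φ := by
  rw [Polynomial.map_map]
  congr 1

/-- the roots of an irreducible polynomial -/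
theorem enum {p : ℤ[X]} {d : ℕ} (hm : p.Monic) (hd : p.natDegree = d)
    (hirr : Irreducible (p.map ψ)) :
    ∃ β : Fin d → ℂ, Function.Injective β ∧ p.map φ = ∏ s, (X - C (β s)) := by
  classical
  obtain ⟨P, hP⟩ : ∃ P : ℂ[X], P = p.map φ := ⟨_, rfl⟩
  have hsep : P.Separable := by
    rw [hP, ← map_ψ]
    exact hirr.separable.map
  have hnd : P.roots.Nodup := nodup_roots hsep
  have hPm : P.Monic := by
    rw [hP]
    exact hm.map _
  have hsp : P.Splits := IsAlgClosed.splits P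
  have hcard : P.roots.toFinset.card = d := by
    rw [Multiset.toFinset_card_of_nodup hnd, ← hsp.natDegree_eq_card_roots, hP,
      hm.natDegree_map, hd]
  obtain ⟨T, hT⟩ : ∃ T : Finset ℂ, T = P.roots.toFinset := ⟨_, rfl⟩
  rw [← hT] at hcard
  obtain ⟨ε, -⟩ : ∃ ε : Fin d ≃ T, True := ⟨(T.equivFin.trans (finCongr hcard)).symm, trivial⟩
  refine ⟨fun s => (ε s : ℂ), fun s t h => ε.injective (Subtype.ext h), ?_⟩
  rw [← hP]
  have h1 := hsp.eq_prod_roots_of_monic hPm
  have h2 : (P.roots.map fun a => X - C a).prod = ∏ a ∈ T, (X - C a) := by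
    rw [Finset.prod, hT, Multiset.toFinset_val, Multiset.dedup_eq_self.2 hnd]
  rw [h1, h2, ← Finset.prod_coe_sort T (fun a => X - C a)]
  exact (Equiv.prod_comp ε (fun a : T => X - C (a : ℂ))).symm

/-- different irreducible polynomials have no common root -/
theorem no_common {p r : ℤ[X]} (hp : p.Monic) (hr : r.Monic) (hpi : Irreducible (p.map ψ))
    (hri : Irreducible (r.map ψ)) (hne : p ≠ r) {z : ℂ} (h1 : (p.map φ).eval z = 0)
    (h2 : (r.map φ).eval z = 0) : False := by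
  have hcop : IsCoprime (p.map ψ) (r.map ψ) := by
    rw [hpi.coprime_iff_not_dvd]
    intro hdvd
    have h3 := hpi.associated_of_dvd hri hdvd
    have h4 := eq_of_monic_of_associated (hp.map ψ) (hr.map ψ) h3
    exact hne (map_injective ψ Int.cast_injective h4)
  obtain ⟨a, b, hab⟩ := hcop
  have h3 := congrArg (fun f => (f.map (algebraMap ℚ ℂ)).eval z) hab
  simp only [Polynomial.map_add, Polynomial.map_mul, map_ψ, eval_add, eval_mul, h1, h2,
    mul_zero, add_zero, Polynomial.map_one, eval_one] at h3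
  exact zero_ne_one h3

/-- solving the inequality for `N` -/
theorem solve {N A d : ℕ} (hd : 1 ≤ d) (h : N ≤ A * (Nat.log 2 (N * d) + 1)) :
    N ≤ 2 * A * (Nat.log 2 A + d + 2) := by
  rcases Nat.eq_zero_or_pos N with h0 | h0
  · rw [h0]
    exact Nat.zero_le _
  obtain ⟨x, hx⟩ : ∃ x, x = Nat.log 2 N := ⟨_, rfl⟩
  have hx1 : 2 ^ x ≤ N := by
    rw [hx]
    exact Nat.pow_log_le_self 2 (by omega)
  have hx2 : N < 2 ^ (x + 1) := by
    rw [hx]
    exact Nat.lt_pow_succ_log_self (by norm_num) N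
  have hlog : Nat.log 2 (N * d) ≤ x + d := by
    have h1 : N * d < 2 ^ (x + d + 1) := by
      have h2 : d < 2 ^ d := Nat.lt_two_pow_self
      calc N * d < 2 ^ (x + 1) * 2 ^ d :=
            Nat.mul_lt_mul_of_lt_of_le hx2 h2.le (by positivity)
        _ = 2 ^ (x + d + 1) := by
            rw [← pow_add]
            congr 1
            ring
    have h2 := Nat.log_lt_of_lt_pow (by positivity) h1
    omega
  have hN : N ≤ A * (x + (d + 1)) := h.trans (Nat.mul_le_mul_left _ (by omega))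
  obtain ⟨y, hy⟩ : ∃ y, y = Nat.log 2 A + 1 := ⟨_, rfl⟩
  have hA : A < 2 ^ y := by
    rw [hy]
    exact Nat.lt_pow_succ_log_self (by norm_num) A
  have hxy : x < 2 * y + (d + 1) := by
    by_contra hcon
    push Not at hcon
    obtain ⟨z, hz⟩ : ∃ z, x = y + z := ⟨x - y, by omega⟩
    have hz1 : y + (d + 1) ≤ z := by omega
    have hz2 : 2 * z ≤ 2 ^ z := by
      have : ∀ z, 1 ≤ z → 2 * z ≤ 2 ^ z := by
        intro z hz
        induction z, hz using Nat.le_induction with
        | base => norm_num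
        | succ k hk ih =>
          rw [pow_succ]
          omega
      exact this z (by omega)
    have h1 : 2 ^ x < 2 ^ y * (x + (d + 1)) := by
      calc 2 ^ x ≤ N := hx1
        _ ≤ A * (x + (d + 1)) := hN
        _ < 2 ^ y * (x + (d + 1)) := Nat.mul_lt_mul_of_pos_right hA (by omega)
    have h2 : 2 ^ y * (x + (d + 1)) ≤ 2 ^ x := by
      rw [hz, pow_add]
      exact Nat.mul_le_mul_left _ (by omega)
    omega
  calc N ≤ A * (x + (d + 1)) := hN
    _ ≤ A * (2 * (Nat.log 2 A + d + 2)) := Nat.mul_le_mul_left _ (by omega)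
    _ = 2 * A * (Nat.log 2 A + d + 2) := by ring

theorem core {L b N d : ℕ} {g : ℕ → ℤ[X]} (hg : IsSLP L g) (hgL : g L ≠ 0) (hb : 1 ≤ b)
    (hd : 1 ≤ d) (q : Fin N → ℤ[X]) (hqi : Function.Injective q) (hm : ∀ i, (q i).Monic)
    (hdeg : ∀ i, (q i).natDegree = d) (hirr : ∀ i, Irreducible ((q i).map ψ))
    (hdvd : ∀ i z, ((q i).map φ).eval z = 0 → ((g L).map φ).eval z = 0)
    (hval : ∀ i z, ((q i).map φ).eval z = 0 → ∀ k ≤ L, ‖((g k).map φ).eval z‖ ≤ 2 ^ b) :
    N ≤ 108 * (b * 2 ^ d * (d + Nat.log 2 b + 1)) := by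
  classical
  rcases Nat.eq_zero_or_pos N with h0 | hN0
  · rw [h0]
    exact Nat.zero_le _
  have hφ : Function.Injective φ := Int.cast_injective
  choose α hα1 hα2 using fun i => enum (hm i) (hdeg i) (hirr i)
  have hroot : ∀ i s, ((q i).map φ).eval (α i s) = 0 := by
    intro i s
    rw [hα2 i, eval_prod]
    exact Finset.prod_eq_zero (Finset.mem_univ s) (by simp)
  have hinj : ∀ i j s t, α i s = α j t → i = j ∧ s = t := by
    intro i j s t h
    by_cases hij : i = j
    · subst hij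
      exact ⟨rfl, hα1 i h⟩
    · exfalso
      refine no_common (hm i) (hm j) (hirr i) (hirr j) (fun h1 => hij (hqi h1)) (hroot i s) ?_
      rw [h]
      exact hroot j t
  obtain ⟨D, hD⟩ : ∃ D, D = N * d := ⟨_, rfl⟩
  have hD1 : 1 ≤ D := by
    rw [hD]
    exact Nat.mul_pos hN0 hd
  have hmapne : (g L).map φ ≠ 0 := (Polynomial.map_ne_zero_iff hφ).2 hgL
  have hdegL : D ≤ (g L).natDegree := by
    have h1 : (Finset.univ.image fun a : Fin N × Fin d => α a.1 a.2) ⊆
        ((g L).map φ).roots.toFinset := by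
      intro z hz
      rw [Finset.mem_image] at hz
      obtain ⟨a, _, rfl⟩ := hz
      rw [Multiset.mem_toFinset, mem_roots hmapne]
      exact hdvd a.1 _ (hroot a.1 a.2)
    have h2 := (Finset.card_le_card h1).trans ((Multiset.toFinset_card_le _).trans (card_roots' _))
    rw [natDegree_map_eq_of_injective hφ, Finset.card_image_of_injective _ (by
      rintro ⟨i, s⟩ ⟨j, t⟩ h
      obtain ⟨h3, h4⟩ := hinj i j s t h
      rw [h3, h4]), Finset.card_univ, Fintype.card_prod, Fintype.card_fin, Fintype.card_fin] at h2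
    rw [hD]
    exact h2
  obtain ⟨I, hI⟩ : ∃ I : ℕ, I = Nat.log 2 D := ⟨_, rfl⟩
  have hI1 : 2 ^ I ≤ D := by
    rw [hI]
    exact Nat.pow_log_le_self 2 (by omega)
  have hI2 : D < 2 ^ (I + 1) := by
    rw [hI]
    exact Nat.lt_pow_succ_log_self (by norm_num) D
  have hsc : ∀ i, ∃ k ≤ L, i ≤ I → 2 ^ i ≤ (g k).natDegree ∧ (g k).natDegree < 2 ^ (i + 1) := by
    intro i
    by_cases hi : i ≤ I
    · have h1 : 2 ^ i ≤ (g L).natDegree :=
        (Nat.pow_le_pow_right (by norm_num) hi).trans (hI1.trans hdegL)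
      obtain ⟨k, hk, h2⟩ := u_SCL L g hg i h1
      exact ⟨k, hk, fun _ => h2⟩
    · exact ⟨0, Nat.zero_le _, fun h => absurd h hi⟩
  choose kf hkf hkd using hsc
  have hrad := u_RAD I (fun i => (g (kf i)).natDegree) hkd
  have hrad' : ∀ m, ∃ c : ℕ → ℕ, m < D → (∀ i, c i ≤ 3) ∧
      ∑ i ∈ Finset.range (I + 1), c i * (g (kf i)).natDegree = m := by
    intro m
    by_cases hmD : m < D
    · obtain ⟨c, hc⟩ := hrad m (by
        have : 2 ^ (I + 1) ≤ 2 ^ (I + 2) := Nat.pow_le_pow_right (by norm_num) (by omega)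
        omega)
      exact ⟨c, fun _ => hc⟩
    · exact ⟨0, fun h => absurd h hmD⟩
  choose c hc using hrad'
  have hgne : ∀ i ≤ I, g (kf i) ≠ 0 := by
    intro i hi h1
    have h2 := (hkd i hi).1
    rw [h1, natDegree_zero] at h2
    have h3 : 0 < 2 ^ i := by positivity
    omega
  obtain ⟨P, hP⟩ : ∃ P : ℕ → ℂ[X],
      P = fun m => ∏ i ∈ Finset.range (I + 1), ((g (kf i)).map φ) ^ c m i := ⟨_, rfl⟩
  have hvand := vand_le (D := N * d) (fun k => α (finProdFinEquiv.symm k).1
    (finProdFinEquiv.symm k).2) P (c := ((2 : ℝ) ^ b) ^ (3 * (I + 1))) (by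
      intro m hmD
      rw [← hD] at hmD
      rw [hP]
      simp only
      rw [natDegree_prod _ _ (fun i hi => pow_ne_zero _
        ((Polynomial.map_ne_zero_iff hφ).2 (hgne i (by rw [Finset.mem_range] at hi; omega))))]
      refine Eq.trans ?_ (hc m hmD).2
      refine Finset.sum_congr rfl fun i _ => ?_
      rw [natDegree_pow, natDegree_map_eq_of_injective hφ]) (by
      intro m hmD
      rw [hP]
      simp only
      rw [leadingCoeff_prod, norm_prod]
      have h1 : ∏ i ∈ Finset.range (I + 1), (1 : ℝ) ≤ ∏ i ∈ Finset.range (I + 1),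
          ‖(((g (kf i)).map φ) ^ c m i).leadingCoeff‖ := by
        refine Finset.prod_le_prod (fun _ _ => zero_le_one) fun i hi => ?_
        rw [leadingCoeff_pow, norm_pow, leadingCoeff_map_of_injective hφ]
        have h2 : (g (kf i)).leadingCoeff ≠ 0 :=
          leadingCoeff_ne_zero.2 (hgne i (by rw [Finset.mem_range] at hi; omega))
        refine one_le_pow₀ ?_
        have h3 : ‖φ (g (kf i)).leadingCoeff‖ = ((|(g (kf i)).leadingCoeff| : ℤ) : ℝ) := by
          rw [eq_intCast, Complex.norm_intCast, Int.cast_abs]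
        rw [h3]
        exact_mod_cast Int.one_le_abs h2
      rwa [Finset.prod_const_one] at h1) (by
      intro m hmD k
      rw [← hD] at hmD
      rw [hP]
      simp only
      rw [eval_prod, norm_prod]
      have h1 : ∏ i ∈ Finset.range (I + 1), ‖(((g (kf i)).map φ) ^ c m i).eval
          (α (finProdFinEquiv.symm k).1 (finProdFinEquiv.symm k).2)‖ ≤
          ∏ i ∈ Finset.range (I + 1), ((2 : ℝ) ^ b) ^ 3 := by
        refine Finset.prod_le_prod (fun _ _ => norm_nonneg _) fun i hi => ?_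
        rw [eval_pow, norm_pow]
        have h2 := hval _ _ (hroot (finProdFinEquiv.symm k).1 (finProdFinEquiv.symm k).2)
          (kf i) (hkf i)
        have h3 : (1 : ℝ) ≤ 2 ^ b := one_le_pow₀ (by norm_num)
        calc _ ≤ ((2 : ℝ) ^ b) ^ c m i := pow_le_pow_left₀ (norm_nonneg _) h2 _
          _ ≤ ((2 : ℝ) ^ b) ^ 3 := pow_le_pow_right₀ h3 ((hc m hmD).1 i)
      rw [Finset.prod_const, Finset.card_range, ← pow_mul] at h1
      exact h1)
  have hvand' : ‖(Matrix.vandermonde fun k : Fin (N * d) =>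
      α (finProdFinEquiv.symm k).1 (finProdFinEquiv.symm k).2).det‖ ≤
      (D.factorial : ℝ) * (((2 : ℝ) ^ b) ^ (3 * (I + 1))) ^ D := by
    rw [hD]
    exact hvand
  obtain ⟨cl, hcl⟩ : ∃ cl : Fin N → (Fin d → ZMod 2),
      cl = fun i (s : Fin d) => (((q i).coeff (s : ℕ) : ℤ) : ZMod 2) := ⟨_, rfl⟩
  obtain ⟨w, hw⟩ : ∃ w : Finset (Fin N × Fin N),
      w = Finset.univ.filter fun a : Fin N × Fin N => a.1 ≠ a.2 ∧ cl a.1 = cl a.2 := ⟨_, rfl⟩
  have hlow := diffs_ge (q := q) hα2 hinj w (by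
    intro a ha
    rw [hw, Finset.mem_filter] at ha
    refine ⟨ha.2.1, same_red (hm _) (hm _) (hdeg _) (hdeg _) fun s => ?_⟩
    have := congrFun ha.2.2 s
    rw [hcl] at this
    exact this)
  rw [diffs_vand] at hlow
  have hpairs := pairs_card cl
  rw [← hw, Fintype.card_fun, ZMod.card, Fintype.card_fin] at hpairs
  -- comparison
  have hdw : d * w.card ≤ 2 * (D * (I + 1)) * (3 * b + 1) := by
    have h1 : (2 : ℝ) ^ (d * w.card) ≤
        ((D.factorial : ℝ) * (((2 : ℝ) ^ b) ^ (3 * (I + 1))) ^ D) ^ 2 :=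
      hlow.trans (pow_le_pow_left₀ (norm_nonneg _) hvand' 2)
    have h2 : (D.factorial : ℝ) ≤ ((2 : ℝ) ^ (I + 1)) ^ D := by
      have h3 : D.factorial ≤ D ^ D := Nat.factorial_le_pow D
      have h4 : D ^ D ≤ (2 ^ (I + 1)) ^ D := Nat.pow_le_pow_left hI2.le _
      exact_mod_cast h3.trans h4
    have h3 : ((D.factorial : ℝ) * (((2 : ℝ) ^ b) ^ (3 * (I + 1))) ^ D) ^ 2 ≤
        (((2 : ℝ) ^ (I + 1)) ^ D * (((2 : ℝ) ^ b) ^ (3 * (I + 1))) ^ D) ^ 2 := by
      refine pow_le_pow_left₀ (by positivity) ?_ 2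
      exact mul_le_mul_of_nonneg_right h2 (by positivity)
    have h4 : (((2 : ℝ) ^ (I + 1)) ^ D * (((2 : ℝ) ^ b) ^ (3 * (I + 1))) ^ D) ^ 2 =
        2 ^ (2 * (D * (I + 1)) * (3 * b + 1)) := by
      rw [← pow_mul, ← pow_mul, ← pow_mul, ← pow_add, ← pow_mul]
      congr 1
      ring
    have h5 := h1.trans (h3.trans (le_of_eq h4))
    exact (pow_le_pow_iff_right₀ (by norm_num : (1 : ℝ) < 2)).1 h5
  have hw2 : w.card ≤ 2 * (N * (I + 1)) * (3 * b + 1) := by
    have h1 : d * w.card ≤ d * (2 * (N * (I + 1)) * (3 * b + 1)) := by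
      refine hdw.trans (le_of_eq ?_)
      rw [hD]
      ring
    exact Nat.le_of_mul_le_mul_left h1 (by omega)
  have hNb : N ≤ 9 * b * 2 ^ d * (Nat.log 2 (N * d) + 1) := by
    rw [← hD, ← hI]
    have h1 : N * N ≤ N * (9 * b * 2 ^ d * (I + 1)) := by
      calc N * N = N ^ 2 := (sq N).symm
        _ ≤ 2 ^ d * (w.card + N) := hpairs
        _ ≤ 2 ^ d * (2 * (N * (I + 1)) * (3 * b + 1) + N * (I + 1)) := by
          refine Nat.mul_le_mul_left _ (Nat.add_le_add hw2 ?_)
          exact Nat.le_mul_of_pos_right _ (by omega)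
        _ = N * ((6 * b + 3) * 2 ^ d * (I + 1)) := by ring
        _ ≤ N * (9 * b * 2 ^ d * (I + 1)) := by
          refine Nat.mul_le_mul_left _ (Nat.mul_le_mul_right _ (Nat.mul_le_mul_right _ ?_))
          omega
    exact Nat.le_of_mul_le_mul_left h1 (by omega)
  have hfin := solve hd hNb
  have hlogA : Nat.log 2 (9 * b * 2 ^ d) ≤ Nat.log 2 b + 4 + d := by
    have h1 : 9 * b * 2 ^ d < 2 ^ (Nat.log 2 b + 4 + d + 1) := by
      have h2 : b < 2 ^ (Nat.log 2 b + 1) := Nat.lt_pow_succ_log_self (by norm_num) b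
      have h3 : 9 * b < 16 * 2 ^ (Nat.log 2 b + 1) := by omega
      calc 9 * b * 2 ^ d < 16 * 2 ^ (Nat.log 2 b + 1) * 2 ^ d :=
            Nat.mul_lt_mul_of_pos_right h3 (by positivity)
        _ = 2 ^ (Nat.log 2 b + 4 + d + 1) := by
            rw [show (16 : ℕ) = 2 ^ 4 by norm_num, ← pow_add, ← pow_add]
            congr 1
            ring
    have h2 := Nat.log_lt_of_lt_pow (by positivity) h1
    omega
  calc N ≤ 2 * (9 * b * 2 ^ d) * (Nat.log 2 (9 * b * 2 ^ d) + d + 2) := hfin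
    _ ≤ 2 * (9 * b * 2 ^ d) * (6 * (d + Nat.log 2 b + 1)) := by
      refine Nat.mul_le_mul_left _ ?_
      omega
    _ = 108 * (b * 2 ^ d * (d + Nat.log 2 b + 1)) := by ring

end Pool.Agent.TH853.Fac
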