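import Pool.Agent.TH853.Fac.Core

set_option autoImplicit false

/-!
# Programs whose results have small height at the roots of many irreducible factors
-/

namespace Pool.Agent.TH853.Fac

open Polynomial Pool.Agent.H537R6

/-- a determinant with rows of different size -/
theorem det_rows {D : ℕ} (A : Matrix (Fin D) (Fin D) ℂ) (r : Fin D → ℝ)
    (h : ∀ i j, ‖A i j‖ ≤ r i) : ‖A.det‖ ≤ D.factorial * ∏ i, r i := by
  rw [Matrix.det_apply]
  refine (norm_sum_le _ _).trans ?_
  have h1 : ∀ σ ∈ (Finset.univ : Finset (Equiv.Perm (Fin D))),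
      ‖Equiv.Perm.sign σ • ∏ i, A (σ i) i‖ ≤ ∏ i, r i := by
    intro σ _
    have h2 : ‖Equiv.Perm.sign σ • ∏ i, A (σ i) i‖ = ∏ i, ‖A (σ i) i‖ := by
      rw [← norm_prod]
      rcases Int.units_eq_one_or (Equiv.Perm.sign σ) with h3 | h3 <;> rw [h3] <;> simp
    rw [h2, ← Equiv.prod_comp σ r]
    exact Finset.prod_le_prod (fun _ _ => norm_nonneg _) fun i _ => h _ _
  have h2 := Finset.sum_le_card_nsmul _ _ _ h1
  rwa [Finset.card_univ, Fintype.card_perm, Fintype.card_fin, nsmul_eq_mul] at h2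

/-- upper bound for the Vandermonde determinant, with different sizes at the points -/
theorem vand_rows {D : ℕ} (v : Fin D → ℂ) (P : ℕ → ℂ[X]) {r : Fin D → ℝ}
    (hdeg : ∀ m < D, (P m).natDegree = m) (hlc : ∀ m < D, 1 ≤ ‖(P m).leadingCoeff‖)
    (hval : ∀ m < D, ∀ k, ‖(P m).eval (v k)‖ ≤ r k) :
    ‖(Matrix.vandermonde v).det‖ ≤ D.factorial * ∏ k, r k := by
  have h1 := Matrix.det_eval_matrixOfPolynomials_eq_det_vandermonde v
    (fun m => C ((P m).leadingCoeff)⁻¹ * P m) (fun m => by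
      have h2 := hlc m m.2
      have h3 : (P m).leadingCoeff ≠ 0 := by
        intro h4
        rw [h4, norm_zero] at h2
        linarith
      rw [natDegree_C_mul (inv_ne_zero h3)]
      exact hdeg m m.2) (fun m => by
      have h2 := hlc m m.2
      have h3 : (P m).leadingCoeff ≠ 0 := by
        intro h4
        rw [h4, norm_zero] at h2
        linarith
      rw [Monic, leadingCoeff_mul, leadingCoeff_C, inv_mul_cancel₀ h3])
  rw [h1]
  refine det_rows _ r ?_
  intro i j
  have h3 := hlc j j.2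
  change ‖(C ((P j).leadingCoeff)⁻¹ * P j).eval (v i)‖ ≤ r i
  rw [eval_mul, eval_C, norm_mul, norm_inv]
  have h4 := hval j j.2 i
  calc ‖(P j).leadingCoeff‖⁻¹ * ‖(P j).eval (v i)‖ ≤ 1 * ‖(P j).eval (v i)‖ :=
        mul_le_mul_of_nonneg_right (inv_le_one_of_one_le₀ h3) (norm_nonneg _)
    _ ≤ r i := by rw [one_mul]; exact h4

/-- product of the values of `f` (at least one) at the roots of `q` -/
noncomputable def hgt (q f : ℤ[X]) : ℝ := ((q.map φ).roots.map fun z => max 1 ‖aeval z f‖).prod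

theorem hgt_eq {q : ℤ[X]} {d : ℕ} {β : Fin d → ℂ} (h : q.map φ = ∏ s, (X - C (β s)))
    (f : ℤ[X]) : hgt q f = ∏ s, max 1 ‖(f.map φ).eval (β s)‖ := by
  have h1 : ∏ s, (X - C (β s)) = ((Finset.univ.val.map β).map fun a => X - C a).prod := by
    rw [Multiset.map_map]
    rfl
  have h2 : (q.map φ).roots = Finset.univ.val.map β := by
    rw [h, h1, roots_multiset_prod_X_sub_C]
  rw [hgt, h2, Multiset.map_map, Finset.prod]
  refine congrArg Multiset.prod (Multiset.map_congr rfl fun s _ => ?_)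
  simp only [Function.comp_apply]
  rw [aeval_def, eval₂_eq_eval_map]
  rfl

theorem coreH {L b N d : ℕ} {g : ℕ → ℤ[X]} (hg : IsSLP L g) (hgL : g L ≠ 0) (hb : 1 ≤ b)
    (hd : 1 ≤ d) (q : Fin N → ℤ[X]) (hqi : Function.Injective q) (hm : ∀ i, (q i).Monic)
    (hdeg : ∀ i, (q i).natDegree = d) (hirr : ∀ i, Irreducible ((q i).map ψ))
    (hdvd : ∀ i z, ((q i).map φ).eval z = 0 → ((g L).map φ).eval z = 0)
    (hval : ∀ i, ∀ k ≤ L, hgt (q i) (g k) ≤ 2 ^ (b * d)) :
    N ≤ 108 * (b * 2 ^ d * (d + Nat.log 2 b + 1)) := by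
  classical
  rcases Nat.eq_zero_or_pos N with h0 | hN0
  · rw [h0]
    exact Nat.zero_le _
  have hφ : Function.Injective φ := Int.cast_injective
  choose α hα1 hα2 using fun i => enum (hm i) (hdeg i) (hirr i)
  have hroot : ∀ i s, ((q i).map φ).eval (α i s) = 0 := by
    intro i s
    rw [hα2 i, eval_prod]
    exact Finset.prod_eq_zero (Finset.mem_univ s) (by simp)
  have hinj : ∀ i j s t, α i s = α j t → i = j ∧ s = t := by
    intro i j s t h
    by_cases hij : i = j
    · subst hij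
      exact ⟨rfl, hα1 i h⟩
    · exfalso
      refine no_common (hm i) (hm j) (hirr i) (hirr j) (fun h1 => hij (hqi h1)) (hroot i s) ?_
      rw [h]
      exact hroot j t
  obtain ⟨D, hD⟩ : ∃ D, D = N * d := ⟨_, rfl⟩
  have hD1 : 1 ≤ D := by
    rw [hD]
    exact Nat.mul_pos hN0 hd
  have hmapne : (g L).map φ ≠ 0 := (Polynomial.map_ne_zero_iff hφ).2 hgL
  have hdegL : D ≤ (g L).natDegree := by
    have h1 : (Finset.univ.image fun a : Fin N × Fin d => α a.1 a.2) ⊆
        ((g L).map φ).roots.toFinset := by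
      intro z hz
      rw [Finset.mem_image] at hz
      obtain ⟨a, _, rfl⟩ := hz
      rw [Multiset.mem_toFinset, mem_roots hmapne]
      exact hdvd a.1 _ (hroot a.1 a.2)
    have h2 := (Finset.card_le_card h1).trans ((Multiset.toFinset_card_le _).trans (card_roots' _))
    rw [natDegree_map_eq_of_injective hφ, Finset.card_image_of_injective _ (by
      rintro ⟨i, s⟩ ⟨j, t⟩ h
      obtain ⟨h3, h4⟩ := hinj i j s t h
      rw [h3, h4]), Finset.card_univ, Fintype.card_prod, Fintype.card_fin, Fintype.card_fin] at h2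
    rw [hD]
    exact h2
  obtain ⟨I, hI⟩ : ∃ I : ℕ, I = Nat.log 2 D := ⟨_, rfl⟩
  have hI1 : 2 ^ I ≤ D := by
    rw [hI]
    exact Nat.pow_log_le_self 2 (by omega)
  have hI2 : D < 2 ^ (I + 1) := by
    rw [hI]
    exact Nat.lt_pow_succ_log_self (by norm_num) D
  have hsc : ∀ i, ∃ k ≤ L, i ≤ I → 2 ^ i ≤ (g k).natDegree ∧ (g k).natDegree < 2 ^ (i + 1) := by
    intro i
    by_cases hi : i ≤ I
    · have h1 : 2 ^ i ≤ (g L).natDegree :=
        (Nat.pow_le_pow_right (by norm_num) hi).trans (hI1.trans hdegL)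
      obtain ⟨k, hk, h2⟩ := u_SCL L g hg i h1
      exact ⟨k, hk, fun _ => h2⟩
    · exact ⟨0, Nat.zero_le _, fun h => absurd h hi⟩
  choose kf hkf hkd using hsc
  have hrad := u_RAD I (fun i => (g (kf i)).natDegree) hkd
  have hrad' : ∀ m, ∃ c : ℕ → ℕ, m < D → (∀ i, c i ≤ 3) ∧
      ∑ i ∈ Finset.range (I + 1), c i * (g (kf i)).natDegree = m := by
    intro m
    by_cases hmD : m < D
    · obtain ⟨c, hc⟩ := hrad m (by
        have : 2 ^ (I + 1) ≤ 2 ^ (I + 2) := Nat.pow_le_pow_right (by norm_num) (by omega)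
        omega)
      exact ⟨c, fun _ => hc⟩
    · exact ⟨0, fun h => absurd h hmD⟩
  choose c hc using hrad'
  have hgne : ∀ i ≤ I, g (kf i) ≠ 0 := by
    intro i hi h1
    have h2 := (hkd i hi).1
    rw [h1, natDegree_zero] at h2
    have h3 : 0 < 2 ^ i := by positivity
    omega
  obtain ⟨P, hP⟩ : ∃ P : ℕ → ℂ[X],
      P = fun m => ∏ i ∈ Finset.range (I + 1), ((g (kf i)).map φ) ^ c m i := ⟨_, rfl⟩
  obtain ⟨mx, hmx⟩ : ∃ mx : ℕ → ℂ → ℝ, mx = fun i z => max 1 ‖((g (kf i)).map φ).eval z‖ :=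
    ⟨_, rfl⟩
  have hmx1 : ∀ i z, 1 ≤ mx i z := by
    intro i z
    rw [hmx]
    exact le_max_left _ _
  have hvand := vand_rows (D := N * d) (fun k => α (finProdFinEquiv.symm k).1
    (finProdFinEquiv.symm k).2) P (r := fun k => ∏ i ∈ Finset.range (I + 1),
      (mx i (α (finProdFinEquiv.symm k).1 (finProdFinEquiv.symm k).2)) ^ 3) (by
      intro m hmD
      rw [← hD] at hmD
      rw [hP]
      simp only
      rw [natDegree_prod _ _ (fun i hi => pow_ne_zero _
        ((Polynomial.map_ne_zero_iff hφ).2 (hgne i (by rw [Finset.mem_range] at hi; omega))))]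
      refine Eq.trans ?_ (hc m hmD).2
      refine Finset.sum_congr rfl fun i _ => ?_
      rw [natDegree_pow, natDegree_map_eq_of_injective hφ]) (by
      intro m hmD
      rw [hP]
      simp only
      rw [leadingCoeff_prod, norm_prod]
      have h1 : ∏ i ∈ Finset.range (I + 1), (1 : ℝ) ≤ ∏ i ∈ Finset.range (I + 1),
          ‖(((g (kf i)).map φ) ^ c m i).leadingCoeff‖ := by
        refine Finset.prod_le_prod (fun _ _ => zero_le_one) fun i hi => ?_
        rw [leadingCoeff_pow, norm_pow, leadingCoeff_map_of_injective hφ]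
        have h2 : (g (kf i)).leadingCoeff ≠ 0 :=
          leadingCoeff_ne_zero.2 (hgne i (by rw [Finset.mem_range] at hi; omega))
        refine one_le_pow₀ ?_
        have h3 : ‖φ (g (kf i)).leadingCoeff‖ = ((|(g (kf i)).leadingCoeff| : ℤ) : ℝ) := by
          rw [eq_intCast, Complex.norm_intCast, Int.cast_abs]
        rw [h3]
        exact_mod_cast Int.one_le_abs h2
      rwa [Finset.prod_const_one] at h1) (by
      intro m hmD k
      rw [← hD] at hmD
      rw [hP]
      simp only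
      rw [eval_prod, norm_prod]
      refine Finset.prod_le_prod (fun _ _ => norm_nonneg _) fun i hi => ?_
      rw [eval_pow, norm_pow]
      have h3 := hmx1 i (α (finProdFinEquiv.symm k).1 (finProdFinEquiv.symm k).2)
      have h2 : ‖((g (kf i)).map φ).eval (α (finProdFinEquiv.symm k).1
          (finProdFinEquiv.symm k).2)‖ ≤
          mx i (α (finProdFinEquiv.symm k).1 (finProdFinEquiv.symm k).2) := by
        rw [hmx]
        exact le_max_right _ _
      calc _ ≤ (mx i (α (finProdFinEquiv.symm k).1 (finProdFinEquiv.symm k).2)) ^ c m i :=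
            pow_le_pow_left₀ (norm_nonneg _) h2 _
        _ ≤ _ := pow_le_pow_right₀ h3 ((hc m hmD).1 i))
  have hrows : ∏ k : Fin (N * d), ∏ i ∈ Finset.range (I + 1),
      (mx i (α (finProdFinEquiv.symm k).1 (finProdFinEquiv.symm k).2)) ^ 3 ≤
      (((2 : ℝ) ^ b) ^ (3 * (I + 1))) ^ D := by
    rw [Finset.prod_comm]
    have h1 : ∀ i ∈ Finset.range (I + 1), ∏ k : Fin (N * d),
        (mx i (α (finProdFinEquiv.symm k).1 (finProdFinEquiv.symm k).2)) ^ 3 ≤
        ((2 : ℝ) ^ (b * d * N)) ^ 3 := by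
      intro i _
      rw [Finset.prod_pow]
      refine pow_le_pow_left₀ (Finset.prod_nonneg fun k _ => zero_le_one.trans (hmx1 _ _)) ?_ 3
      have h2 : ∏ k : Fin (N * d), mx i (α (finProdFinEquiv.symm k).1
          (finProdFinEquiv.symm k).2) = ∏ a : Fin N × Fin d, mx i (α a.1 a.2) :=
        Fintype.prod_equiv finProdFinEquiv.symm _ _ fun k => rfl
      rw [h2, Fintype.prod_prod_type]
      have h3 : ∏ a : Fin N, ∏ s : Fin d, mx i (α a s) ≤ ∏ _a : Fin N, (2 : ℝ) ^ (b * d) := by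
        refine Finset.prod_le_prod (fun a _ => Finset.prod_nonneg fun s _ =>
          zero_le_one.trans (hmx1 _ _)) fun a _ => ?_
        have h4 := hval a (kf i) (hkf i)
        rw [hgt_eq (hα2 a)] at h4
        rw [hmx]
        exact h4
      refine h3.trans (le_of_eq ?_)
      rw [Finset.prod_const, Finset.card_univ, Fintype.card_fin, ← pow_mul]
    refine (Finset.prod_le_prod (fun i _ => Finset.prod_nonneg fun k _ => pow_nonneg
      (zero_le_one.trans (hmx1 _ _)) _) h1).trans (le_of_eq ?_)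
    rw [Finset.prod_const, Finset.card_range, ← pow_mul, ← pow_mul, ← pow_mul, ← pow_mul, hD]
    congr 1
    ring
  have hvand' : ‖(Matrix.vandermonde fun k : Fin (N * d) =>
      α (finProdFinEquiv.symm k).1 (finProdFinEquiv.symm k).2).det‖ ≤
      (D.factorial : ℝ) * (((2 : ℝ) ^ b) ^ (3 * (I + 1))) ^ D := by
    refine hvand.trans ?_
    rw [show (D.factorial : ℝ) = ((N * d).factorial : ℝ) by rw [hD]]
    exact mul_le_mul_of_nonneg_left hrows (by positivity)
  obtain ⟨cl, hcl⟩ : ∃ cl : Fin N → (Fin d → ZMod 2),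
      cl = fun i (s : Fin d) => (((q i).coeff (s : ℕ) : ℤ) : ZMod 2) := ⟨_, rfl⟩
  obtain ⟨w, hw⟩ : ∃ w : Finset (Fin N × Fin N),
      w = Finset.univ.filter fun a : Fin N × Fin N => a.1 ≠ a.2 ∧ cl a.1 = cl a.2 := ⟨_, rfl⟩
  have hlow := diffs_ge (q := q) hα2 hinj w (by
    intro a ha
    rw [hw, Finset.mem_filter] at ha
    refine ⟨ha.2.1, same_red (hm _) (hm _) (hdeg _) (hdeg _) fun s => ?_⟩
    have := congrFun ha.2.2 s
    rw [hcl] at this
    exact this)
  rw [diffs_vand] at hlow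
  have hpairs := pairs_card cl
  rw [← hw, Fintype.card_fun, ZMod.card, Fintype.card_fin] at hpairs
  -- comparison
  have hdw : d * w.card ≤ 2 * (D * (I + 1)) * (3 * b + 1) := by
    have h1 : (2 : ℝ) ^ (d * w.card) ≤
        ((D.factorial : ℝ) * (((2 : ℝ) ^ b) ^ (3 * (I + 1))) ^ D) ^ 2 :=
      hlow.trans (pow_le_pow_left₀ (norm_nonneg _) hvand' 2)
    have h2 : (D.factorial : ℝ) ≤ ((2 : ℝ) ^ (I + 1)) ^ D := by
      have h3 : D.factorial ≤ D ^ D := Nat.factorial_le_pow D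
      have h4 : D ^ D ≤ (2 ^ (I + 1)) ^ D := Nat.pow_le_pow_left hI2.le _
      exact_mod_cast h3.trans h4
    have h3 : ((D.factorial : ℝ) * (((2 : ℝ) ^ b) ^ (3 * (I + 1))) ^ D) ^ 2 ≤
        (((2 : ℝ) ^ (I + 1)) ^ D * (((2 : ℝ) ^ b) ^ (3 * (I + 1))) ^ D) ^ 2 := by
      refine pow_le_pow_left₀ (by positivity) ?_ 2
      exact mul_le_mul_of_nonneg_right h2 (by positivity)
    have h4 : (((2 : ℝ) ^ (I + 1)) ^ D * (((2 : ℝ) ^ b) ^ (3 * (I + 1))) ^ D) ^ 2 =
        2 ^ (2 * (D * (I + 1)) * (3 * b + 1)) := by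
      rw [← pow_mul, ← pow_mul, ← pow_mul, ← pow_add, ← pow_mul]
      congr 1
      ring
    have h5 := h1.trans (h3.trans (le_of_eq h4))
    exact (pow_le_pow_iff_right₀ (by norm_num : (1 : ℝ) < 2)).1 h5
  have hw2 : w.card ≤ 2 * (N * (I + 1)) * (3 * b + 1) := by
    have h1 : d * w.card ≤ d * (2 * (N * (I + 1)) * (3 * b + 1)) := by
      refine hdw.trans (le_of_eq ?_)
      rw [hD]
      ring
    exact Nat.le_of_mul_le_mul_left h1 (by omega)
  have hNb : N ≤ 9 * b * 2 ^ d * (Nat.log 2 (N * d) + 1) := by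
    rw [← hD, ← hI]
    have h1 : N * N ≤ N * (9 * b * 2 ^ d * (I + 1)) := by
      calc N * N = N ^ 2 := (sq N).symm
        _ ≤ 2 ^ d * (w.card + N) := hpairs
        _ ≤ 2 ^ d * (2 * (N * (I + 1)) * (3 * b + 1) + N * (I + 1)) := by
          refine Nat.mul_le_mul_left _ (Nat.add_le_add hw2 ?_)
          exact Nat.le_mul_of_pos_right _ (by omega)
        _ = N * ((6 * b + 3) * 2 ^ d * (I + 1)) := by ring
        _ ≤ N * (9 * b * 2 ^ d * (I + 1)) := by
          refine Nat.mul_le_mul_left _ (Nat.mul_le_mul_right _ (Nat.mul_le_mul_right _ ?_))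
          omega
    exact Nat.le_of_mul_le_mul_left h1 (by omega)
  have hfin := solve hd hNb
  have hlogA : Nat.log 2 (9 * b * 2 ^ d) ≤ Nat.log 2 b + 4 + d := by
    have h1 : 9 * b * 2 ^ d < 2 ^ (Nat.log 2 b + 4 + d + 1) := by
      have h2 : b < 2 ^ (Nat.log 2 b + 1) := Nat.lt_pow_succ_log_self (by norm_num) b
      have h3 : 9 * b < 16 * 2 ^ (Nat.log 2 b + 1) := by omega
      calc 9 * b * 2 ^ d < 16 * 2 ^ (Nat.log 2 b + 1) * 2 ^ d :=
            Nat.mul_lt_mul_of_pos_right h3 (by positivity)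
        _ = 2 ^ (Nat.log 2 b + 4 + d + 1) := by
            rw [show (16 : ℕ) = 2 ^ 4 by norm_num, ← pow_add, ← pow_add]
            congr 1
            ring
    have h2 := Nat.log_lt_of_lt_pow (by positivity) h1
    omega
  calc N ≤ 2 * (9 * b * 2 ^ d) * (Nat.log 2 (9 * b * 2 ^ d) + d + 2) := hfin
    _ ≤ 2 * (9 * b * 2 ^ d) * (6 * (d + Nat.log 2 b + 1)) := by
      refine Nat.mul_le_mul_left _ ?_
      omega
    _ = 108 * (b * 2 ^ d * (d + Nat.log 2 b + 1)) := by ring

/-- all degrees up to `d` -/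
theorem mainH {L b d : ℕ} {g : ℕ → ℤ[X]} (hg : IsSLP L g) (hgL : g L ≠ 0) (hb : 1 ≤ b)
    (F : Finset ℤ[X]) (hF : ∀ q ∈ F, q.Monic ∧ Irreducible q ∧ q.natDegree ≤ d ∧ q ∣ g L ∧
      ∀ k ≤ L, hgt q (g k) ≤ 2 ^ (b * q.natDegree)) :
    F.card ≤ 216 * (b * 2 ^ d * (d + Nat.log 2 b + 1)) := by
  classical
  have hone : ∀ j, 1 ≤ j → (F.filter fun q => q.natDegree = j).card ≤
      108 * (b * 2 ^ j * (j + Nat.log 2 b + 1)) := by
    intro j hj
    obtain ⟨G, hG⟩ : ∃ G, G = F.filter fun q => q.natDegree = j := ⟨_, rfl⟩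
    rw [← hG]
    have hGF : ∀ q ∈ G, q ∈ F ∧ q.natDegree = j := by
      intro q hq
      rwa [hG, Finset.mem_filter] at hq
    obtain ⟨ε, -⟩ : ∃ ε : Fin G.card ≃ G, True := ⟨G.equivFin.symm, trivial⟩
    refine coreH hg hgL hb hj (fun i => (ε i : ℤ[X])) (fun i k h => ε.injective (Subtype.ext h))
      (fun i => (hF _ (hGF _ (ε i).2).1).1) (fun i => (hGF _ (ε i).2).2) (fun i => ?_)
      (fun i z hz => ?_) (fun i k hk => ?_)
    · have h1 := hF _ (hGF _ (ε i).2).1
      exact (h1.1.irreducible_iff_irreducible_map_fraction_map (K := ℚ)).1 h1.2.1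
    · obtain ⟨r, hr⟩ := (hF _ (hGF _ (ε i).2).1).2.2.2.1
      rw [hr, Polynomial.map_mul, eval_mul, hz, zero_mul]
    · have h1 := (hF _ (hGF _ (ε i).2).1).2.2.2.2 k hk
      rwa [(hGF _ (ε i).2).2] at h1
  have h1 : F.card = ∑ j ∈ Finset.Icc 1 d, (F.filter fun q => q.natDegree = j).card := by
    refine Finset.card_eq_sum_card_fiberwise fun q hq => ?_
    have hq' := hF q hq
    rw [Finset.mem_coe, Finset.mem_Icc]
    refine ⟨?_, hq'.2.2.1⟩
    rcases Nat.eq_zero_or_pos q.natDegree with h0 | h0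
    · exfalso
      have h2 := hq'.1.natDegree_eq_zero.1 h0
      have h3 := hq'.2.1.not_isUnit
      rw [h2] at h3
      exact h3 isUnit_one
    · exact h0
  rw [h1]
  have h2 : ∀ j ∈ Finset.Icc 1 d, (F.filter fun q => q.natDegree = j).card ≤
      2 ^ j * (108 * (b * (d + Nat.log 2 b + 1))) := by
    intro j hj
    rw [Finset.mem_Icc] at hj
    refine (hone j hj.1).trans ?_
    calc 108 * (b * 2 ^ j * (j + Nat.log 2 b + 1)) =
          2 ^ j * (108 * (b * (j + Nat.log 2 b + 1))) := by ring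
      _ ≤ _ := by
        refine Nat.mul_le_mul_left _ (Nat.mul_le_mul_left _ (Nat.mul_le_mul_left _ ?_))
        omega
  have h3 : ∀ d : ℕ, ∑ j ∈ Finset.Icc 1 d, 2 ^ j ≤ 2 * 2 ^ d := by
    intro d
    induction d with
    | zero => simp
    | succ d ih =>
      rw [Finset.sum_Icc_succ_top (by omega), pow_succ]
      omega
  refine (Finset.sum_le_sum h2).trans ?_
  rw [← Finset.sum_mul]
  calc (∑ j ∈ Finset.Icc 1 d, 2 ^ j) * (108 * (b * (d + Nat.log 2 b + 1))) ≤
        2 * 2 ^ d * (108 * (b * (d + Nat.log 2 b + 1))) :=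
        Nat.mul_le_mul_right _ (h3 d)
    _ = 216 * (b * 2 ^ d * (d + Nat.log 2 b + 1)) := by ring

end Pool.Agent.TH853.Fac
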