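import Pool.Agent.TH853.Fac.Val

set_option autoImplicit false

/-!
# Irreducible factors of the results of one-register programs with monic steps
-/

namespace Pool.Agent.TH853.Fac

open Polynomial Pool.Agent.H537R6 Pool.Agent.TH853.Reg Pool.Agent.TH853.Dag

/-- one-register programs with monic steps -/
structure MReg (n e b : ℕ) (y : ℕ → ℤ[X]) (P : ℕ → ℤ[X][X]) : Prop where
  hm : (y 0).Monic
  h1 : 1 ≤ (y 0).natDegree
  he : (y 0).natDegree ≤ e
  hy : CB (2 ^ b) (y 0)
  hPm : ∀ k < n, (P k).Monic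
  hP1 : ∀ k < n, 1 ≤ (P k).natDegree
  hPe : ∀ k < n, (P k).natDegree ≤ e
  hPD : ∀ k < n, ∀ i, ((P k).coeff i).natDegree < (y 0).natDegree
  hPC : ∀ k < n, ∀ i, CB (2 ^ b) ((P k).coeff i)
  hs : ∀ k < n, y (k + 1) = (P k).eval (y k)

variable {n e b : ℕ} {y : ℕ → ℤ[X]} {P : ℕ → ℤ[X][X]}

theorem MReg.e_pos (h : MReg n e b y P) : 1 ≤ e := h.h1.trans h.he

/-- the results are monic -/
theorem MReg.monic (h : MReg n e b y P) : ∀ k ≤ n, (y k).Monic ∧
    (y 0).natDegree ≤ (y k).natDegree := by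
  intro k
  induction k with
  | zero => exact fun _ => ⟨h.hm, le_rfl⟩
  | succ k ih =>
    intro hk
    obtain ⟨h1, h2⟩ := ih (by omega)
    obtain ⟨m, hm⟩ : ∃ m, (P k).natDegree = m + 1 :=
      ⟨(P k).natDegree - 1, by have := h.hP1 k (by omega); omega⟩
    have hlc : (P k).coeff (m + 1) = 1 := by
      rw [← hm]
      exact h.hPm k (by omega)
    have hstep : y (k + 1) = y k ^ (m + 1) +
        ∑ i ∈ Finset.range (m + 1), (P k).coeff i * y k ^ i := by
      rw [h.hs k (by omega), eval_eq_sum_range' (n := m + 2) (by omega), Finset.sum_range_succ,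
        hlc, one_mul, add_comm]
    have hmon : (y k ^ (m + 1)).Monic := h1.pow _
    have hdpow : (y k ^ (m + 1)).natDegree = (m + 1) * (y k).natDegree := h1.natDegree_pow _
    have hlow : (∑ i ∈ Finset.range (m + 1), (P k).coeff i * y k ^ i).degree <
        (y k ^ (m + 1)).degree := by
      rw [degree_eq_natDegree hmon.ne_zero, hdpow]
      refine lt_of_le_of_lt (b := (((m + 1) * (y k).natDegree - 1 : ℕ) : WithBot ℕ)) ?_ ?_
      · refine degree_le_of_natDegree_le ?_
        refine natDegree_sum_le_of_forall_le _ _ fun i hi => ?_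
        rw [Finset.mem_range] at hi
        refine natDegree_mul_le.trans ?_
        have h3 : (y k ^ i).natDegree = i * (y k).natDegree := h1.natDegree_pow _
        have h4 := h.hPD k (by omega) i
        have h5 : i * (y k).natDegree ≤ m * (y k).natDegree := Nat.mul_le_mul_right _ (by omega)
        have h6 : (m + 1) * (y k).natDegree = m * (y k).natDegree + (y k).natDegree := by ring
        omega
      · have h3 : 1 ≤ (m + 1) * (y k).natDegree :=
          Nat.mul_pos (by omega) (by have := h.h1; omega)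
        exact_mod_cast (by omega : (m + 1) * (y k).natDegree - 1 < (m + 1) * (y k).natDegree)
    refine ⟨?_, ?_⟩
    · rw [hstep]
      exact hmon.add_of_left hlow
    · rw [hstep, natDegree_add_eq_left_of_degree_lt hlow, hdpow]
      exact h2.trans (Nat.le_mul_of_pos_left _ (by omega))

/-- bit length of the roots -/
def br (n e b : ℕ) : ℕ := b + (Nat.log 2 (n + 1) + 1) + 2 * e

/-- points outside a disc are no roots -/
theorem MReg.escape (h : MReg n e b y P) {z : ℂ}
    (hz : (1 + (n : ℝ) * e) * (e * 2 ^ b) + 1 ≤ ‖z‖) : aeval z (y n) ≠ 0 := by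
  obtain ⟨D, hD⟩ : ∃ D, (y 0).natDegree = D + 1 :=
    ⟨(y 0).natDegree - 1, by have := h.h1; omega⟩
  have he : (D : ℝ) + 1 ≤ e := by
    have : D + 1 ≤ e := hD ▸ h.he
    exact_mod_cast this
  have hb : (1 : ℝ) ≤ 2 ^ b := one_le_pow₀ (by norm_num)
  have hn : (0 : ℝ) ≤ n := Nat.cast_nonneg _
  have hD0 : (0 : ℝ) ≤ D := Nat.cast_nonneg _
  have he0 : (0 : ℝ) ≤ e := Nat.cast_nonneg _
  have hnn : 0 ≤ (1 + (n : ℝ) * e) * (e * 2 ^ b) := by positivity
  have hz1 : 1 ≤ ‖z‖ := by linarith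
  obtain ⟨c, hc⟩ : ∃ c : ℝ, c = ((D : ℝ) + 1) * 2 ^ b := ⟨_, rfl⟩
  have hc0 : 0 ≤ c := by
    rw [hc]
    positivity
  have hce : c ≤ e * 2 ^ b := by
    rw [hc]
    exact mul_le_mul_of_nonneg_right he (by positivity)
  obtain ⟨E, hE⟩ : ∃ E : ℝ, E = c * ‖z‖ ^ D := ⟨_, rfl⟩
  have hE0 : 0 ≤ E := by
    rw [hE]
    positivity
  have hzD : (1 : ℝ) ≤ ‖z‖ ^ D := one_le_pow₀ hz1
  have key : ∀ k ≤ n, ‖z‖ ^ D * (‖z‖ - c) - k * (e * E) ≤ ‖aeval z (y k)‖ := by
    intro k
    induction k with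
    | zero =>
      intro _
      have h1 := cval_ge h.hm hD h.hy hz1
      push_cast at h1
      rw [hc]
      simpa using h1
    | succ k ih =>
      intro hk
      have h1 := ih (by omega)
      obtain ⟨m, hm⟩ : ∃ m, m = (P k).natDegree := ⟨_, rfl⟩
      have hm1 : 1 ≤ m := hm ▸ h.hP1 k (by omega)
      have hme : m ≤ e := hm ▸ h.hPe k (by omega)
      have hme' : (m : ℝ) * E ≤ e * E :=
        mul_le_mul_of_nonneg_right (by exact_mod_cast hme) hE0
      rw [h.hs k (by omega), cval_step (P k) (y k) z (m + 1) (by omega)]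
      have hkn : ((k : ℝ) + 1) ≤ n := by exact_mod_cast hk
      -- the value is large
      have hbig : 1 + e * E ≤ ‖z‖ ^ D * (‖z‖ - c) - k * (e * E) := by
        have h2 : 1 + (1 + (n : ℝ) * e) * c ≤ ‖z‖ := by
          have := mul_le_mul_of_nonneg_left hce (by positivity : (0 : ℝ) ≤ 1 + (n : ℝ) * e)
          linarith
        have h3 : ‖z‖ ^ D * (1 + (n : ℝ) * e * c) ≤ ‖z‖ ^ D * (‖z‖ - c) := by
          refine mul_le_mul_of_nonneg_left ?_ (by positivity)
          nlinarith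
        have h4 : ‖z‖ ^ D * (1 + (n : ℝ) * e * c) = ‖z‖ ^ D + n * (e * E) := by
          rw [hE]
          ring
        have h5 : ((k : ℝ) + 1) * (e * E) ≤ n * (e * E) :=
          mul_le_mul_of_nonneg_right hkn (by positivity)
        nlinarith
      have h6 := monic_step (u := aeval z (y k)) hm1 hE0
        (a := fun i => aeval z ((P k).coeff i)) (fun i _ => by
          have h7 : ((P k).coeff i).natDegree ≤ D := by
            have := h.hPD k (by omega) i
            omega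
          have h8 := cval_le h7 (h.hPC k (by omega) i) hz1 le_rfl
          push_cast at h8
          rw [hE, hc]
          exact h8) (by
          have : (P k).coeff m = 1 := by
            rw [hm]
            exact h.hPm k (by omega)
          simp only [this, map_one]) (by
          have : 0 ≤ (e : ℝ) * E := by positivity
          linarith) (by linarith)
      push_cast
      nlinarith
  have h1 := key n le_rfl
  have h2 : 1 + (1 + (n : ℝ) * e) * c ≤ ‖z‖ := by
    have := mul_le_mul_of_nonneg_left hce (by positivity : (0 : ℝ) ≤ 1 + (n : ℝ) * e)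
    linarith
  have h3 : ‖z‖ ^ D * (1 + (n : ℝ) * e * c) ≤ ‖z‖ ^ D * (‖z‖ - c) := by
    refine mul_le_mul_of_nonneg_left ?_ (by positivity)
    nlinarith
  have h4 : ‖z‖ ^ D * (1 + (n : ℝ) * e * c) = ‖z‖ ^ D + n * (e * E) := by
    rw [hE]
    ring
  intro h5
  rw [h5, norm_zero] at h1
  linarith

theorem MReg.root_le (h : MReg n e b y P) {z : ℂ} (hz : aeval z (y n) = 0) :
    ‖z‖ ≤ 2 ^ br n e b := by
  by_contra hcon
  push Not at hcon
  refine h.escape ?_ hz
  refine le_trans ?_ hcon.le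
  have hR : (1 + n * e) * (e * 2 ^ b) + 1 ≤ 2 ^ br n e b := by
    have he := h.e_pos
    have h3 : (1 + n * e) * e ≤ (n + 1) * (e * e) := by nlinarith
    have h4 : n + 1 < 2 ^ (Nat.log 2 (n + 1) + 1) := Nat.lt_pow_succ_log_self (by norm_num) _
    have h5 : e ≤ 2 ^ e := by
      have := self_le_two_pow e
      omega
    have h6 : (1 + n * e) * (e * 2 ^ b) < 2 ^ br n e b := by
      calc (1 + n * e) * (e * 2 ^ b) = 2 ^ b * ((1 + n * e) * e) := by ring
        _ ≤ 2 ^ b * ((n + 1) * (e * e)) := Nat.mul_le_mul_left _ h3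
        _ ≤ 2 ^ b * ((n + 1) * (2 ^ e * 2 ^ e)) :=
          Nat.mul_le_mul_left _ (Nat.mul_le_mul_left _ (Nat.mul_le_mul h5 h5))
        _ < 2 ^ b * (2 ^ (Nat.log 2 (n + 1) + 1) * (2 ^ e * 2 ^ e)) :=
          Nat.mul_lt_mul_of_pos_left (Nat.mul_lt_mul_of_pos_right h4 (by positivity))
            (by positivity)
        _ = 2 ^ br n e b := by
          rw [br, ← pow_add, ← pow_add, ← pow_add]
          congr 1
          ring
    omega
  exact_mod_cast hR

/-- the values of the register at a root of the last result -/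
theorem MReg.val_le (h : MReg n e b y P) {z : ℂ} (hz : aeval z (y n) = 0) :
    ∀ k ≤ n, ‖aeval z (y k)‖ ≤
      2 ^ ((Nat.log 2 (n + 1) + 1) + 2 * e + b + br n e b * e) := by
  obtain ⟨A, hA⟩ : ∃ A : ℝ, A = 2 ^ (e + b + br n e b * e) := ⟨_, rfl⟩
  have hA1 : 1 ≤ A := hA ▸ one_le_pow₀ (by norm_num)
  have hzR := h.root_le hz
  have key : ∀ j ≤ n, ‖aeval z (y (n - j))‖ ≤ j * (e * A) := by
    intro j
    induction j with
    | zero =>
      intro _
      rw [Nat.sub_zero, hz]
      simp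
    | succ j ih =>
      intro hj
      have h1 := ih (by omega)
      obtain ⟨k, hk⟩ : ∃ k, n - j = k + 1 := ⟨n - j - 1, by omega⟩
      have hk' : n - (j + 1) = k := by omega
      have hkn : k < n := by omega
      rw [hk] at h1
      rw [hk']
      obtain ⟨m, hm⟩ : ∃ m, m = (P k).natDegree := ⟨_, rfl⟩
      rw [h.hs k hkn, cval_step (P k) (y k) z (m + 1) (by omega)] at h1
      have h2 := monic_back (u := aeval z (y k)) (hm ▸ h.hP1 k hkn) (hm ▸ h.hPe k hkn)
        hA1 (a := fun i => aeval z ((P k).coeff i)) (fun i _ => by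
          rw [hA]
          refine short_val hzR ?_ (h.hPC k hkn i)
          have h3 := h.hPD k hkn i
          have h4 := h.he
          omega) (by
          have : (P k).coeff m = 1 := by
            rw [hm]
            exact h.hPm k hkn
          simp only [this, map_one])
      push_cast
      linarith
  intro k hk
  have h1 := key (n - k) (by omega)
  rw [show n - (n - k) = k by omega] at h1
  refine h1.trans ?_
  have h2 : ((n - k : ℕ) : ℝ) ≤ 2 ^ (Nat.log 2 (n + 1) + 1) := by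
    have h3 : n + 1 < 2 ^ (Nat.log 2 (n + 1) + 1) := Nat.lt_pow_succ_log_self (by norm_num) _
    have h4 : n - k ≤ 2 ^ (Nat.log 2 (n + 1) + 1) := by omega
    exact_mod_cast h4
  have h3 : (e : ℝ) ≤ 2 ^ e := by
    have := cast_succ_le e
    linarith
  calc ((n - k : ℕ) : ℝ) * (e * A) ≤ 2 ^ (Nat.log 2 (n + 1) + 1) * (2 ^ e * A) :=
        mul_le_mul h2 (mul_le_mul_of_nonneg_right h3 (by linarith)) (by positivity)
          (by positivity)
    _ = 2 ^ ((Nat.log 2 (n + 1) + 1) + 2 * e + b + br n e b * e) := by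
        rw [hA, ← pow_add, ← pow_add]
        congr 1
        ring

/-- bit length of all the intermediate results -/
def bβ (n e b : ℕ) : ℕ := bt e b (br n e b) (Nat.log 2 (n + 1) + 1)

theorem MReg.reach (h : MReg n e b y P) :
    Reach (Sm {z : ℂ | aeval z (y n) = 0} (bβ n e b)) (y n) := by
  have he := h.e_pos
  have hZ : ∀ z ∈ {z : ℂ | aeval z (y n) = 0}, ‖z‖ ≤ 2 ^ br n e b := fun z hz => h.root_le hz
  have key : ∀ k ≤ n, Reach (Sm {z : ℂ | aeval z (y n) = 0} (bβ n e b)) (y k) := by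
    intro k
    induction k with
    | zero => exact fun _ => short_reachC he hZ e _ le_rfl h.he h.hy
    | succ k ih =>
      intro hk
      rw [h.hs k (by omega)]
      refine step_reachC he hZ (fun z hz => h.val_le hz k (by omega)) (ih (by omega)) e _ le_rfl
        (h.hPe k (by omega)) fun i => ⟨?_, h.hPC k (by omega) i⟩
      have h3 := h.hPD k (by omega) i
      have h4 := h.he
      omega
  exact key n le_rfl

theorem aeval_map_eval (f : ℤ[X]) (z : ℂ) : aeval z f = (f.map φ).eval z := by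
  rw [aeval_def, eval₂_eq_eval_map]
  rfl

/-- monic rational factors are integer polynomials -/
theorem lift_dvd {f : ℤ[X]} (hf : f.Monic) {q : ℚ[X]} (hq : q.Monic)
    (hd : q ∣ f.map ψ) : ∃ p : ℤ[X], p.map ψ = q ∧ p.Monic := by
  obtain ⟨p, hp⟩ := IsIntegrallyClosed.eq_map_mul_C_of_dvd ℚ hf (g := q) hd
  rw [hq.leadingCoeff, C_1, mul_one] at hp
  refine ⟨p, hp, ?_⟩
  have h1 : Function.Injective (algebraMap ℤ ℚ) := Int.cast_injective
  have h2 := leadingCoeff_map_of_injective h1 (p := p)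
  rw [hp, hq.leadingCoeff] at h2
  exact (h1 (by rw [← h2, map_one]))

/-- factors of one degree -/
theorem one_degree {L β d : ℕ} {g : ℕ → ℤ[X]} {f : ℤ[X]} (hg : IsSLP L g) (hgL : g L = f)
    (hf : f.Monic) (hβ : 1 ≤ β) (hd : 1 ≤ d)
    (hval : ∀ k ≤ L, ∀ z : ℂ, aeval z f = 0 → ‖aeval z (g k)‖ ≤ 2 ^ β)
    (F : Finset ℚ[X]) (hF : ∀ q ∈ F, q.Monic ∧ Irreducible q ∧ q.natDegree = d ∧ q ∣ f.map ψ) :
    F.card ≤ 108 * (β * 2 ^ d * (d + Nat.log 2 β + 1)) := by
  classical
  have hex : ∀ q : F, ∃ p : ℤ[X], p.map ψ = (q : ℚ[X]) ∧ p.Monic := fun q =>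
    lift_dvd hf (hF q q.2).1 (hF q q.2).2.2.2
  choose p hp1 hp2 using hex
  obtain ⟨ε, -⟩ : ∃ ε : Fin F.card ≃ F, True := ⟨F.equivFin.symm, trivial⟩
  have hψ : Function.Injective ψ := Int.cast_injective
  have hroot : ∀ (i : Fin F.card) (z : ℂ), ((p (ε i)).map φ).eval z = 0 → aeval z f = 0 := by
    intro i z hz
    obtain ⟨r, hr⟩ := (hF _ (ε i).2).2.2.2
    rw [aeval_map_eval, ← map_ψ, hr, Polynomial.map_mul, eval_mul, ← hp1, map_ψ, hz, zero_mul]
  refine core (b := β) hg (by rw [hgL]; exact hf.ne_zero) hβ hd (fun i => p (ε i)) ?_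
    (fun i => hp2 _) ?_ ?_ ?_ ?_
  · intro i j hij
    have h1 : ((ε i : F) : ℚ[X]) = ε j := by
      rw [← hp1, ← hp1]
      exact congrArg (fun r => r.map ψ) hij
    exact ε.injective (Subtype.ext h1)
  · intro i
    rw [← (hF _ (ε i).2).2.2.1, ← hp1, natDegree_map_eq_of_injective hψ]
  · intro i
    rw [hp1]
    exact (hF _ (ε i).2).2.1
  · intro i z hz
    rw [hgL, ← aeval_map_eval]
    exact hroot i z hz
  · intro i z hz k hk
    rw [← aeval_map_eval]
    exact hval k hk z (hroot i z hz)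

theorem sum_two_pow_le (d : ℕ) : ∑ j ∈ Finset.Icc 1 d, 2 ^ j ≤ 2 * 2 ^ d := by
  induction d with
  | zero => simp
  | succ d ih =>
    rw [Finset.sum_Icc_succ_top (by omega), pow_succ]
    omega

/-- factors of all degrees up to `d` -/
theorem all_degrees {L β d : ℕ} {g : ℕ → ℤ[X]} {f : ℤ[X]} (hg : IsSLP L g) (hgL : g L = f)
    (hf : f.Monic) (hβ : 1 ≤ β)
    (hval : ∀ k ≤ L, ∀ z : ℂ, aeval z f = 0 → ‖aeval z (g k)‖ ≤ 2 ^ β)
    (F : Finset ℚ[X]) (hF : ∀ q ∈ F, q.Monic ∧ Irreducible q ∧ q.natDegree ≤ d ∧ q ∣ f.map ψ) :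
    F.card ≤ 216 * (β * 2 ^ d * (d + Nat.log 2 β + 1)) := by
  classical
  have h1 : F.card = ∑ j ∈ Finset.Icc 1 d, (F.filter fun q => q.natDegree = j).card := by
    refine Finset.card_eq_sum_card_fiberwise fun q hq => ?_
    have hq' := hF q hq
    rw [Finset.mem_coe, Finset.mem_Icc]
    exact ⟨hq'.2.1.natDegree_pos, hq'.2.2.1⟩
  rw [h1]
  have h2 : ∀ j ∈ Finset.Icc 1 d, (F.filter fun q => q.natDegree = j).card ≤
      2 ^ j * (108 * (β * (d + Nat.log 2 β + 1))) := by
    intro j hj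
    rw [Finset.mem_Icc] at hj
    have h3 := one_degree hg hgL hf hβ hj.1 hval (F.filter fun q => q.natDegree = j) (by
      intro q hq
      rw [Finset.mem_filter] at hq
      obtain ⟨h4, h5, _, h6⟩ := hF q hq.1
      exact ⟨h4, h5, hq.2, h6⟩)
    refine h3.trans ?_
    calc 108 * (β * 2 ^ j * (j + Nat.log 2 β + 1)) =
          2 ^ j * (108 * (β * (j + Nat.log 2 β + 1))) := by ring
      _ ≤ _ := by
        refine Nat.mul_le_mul_left _ (Nat.mul_le_mul_left _ (Nat.mul_le_mul_left _ ?_))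
        omega
  refine (Finset.sum_le_sum h2).trans ?_
  rw [← Finset.sum_mul]
  calc (∑ j ∈ Finset.Icc 1 d, 2 ^ j) * (108 * (β * (d + Nat.log 2 β + 1))) ≤
        2 * 2 ^ d * (108 * (β * (d + Nat.log 2 β + 1))) :=
        Nat.mul_le_mul_right _ (sum_two_pow_le d)
    _ = 216 * (β * 2 ^ d * (d + Nat.log 2 β + 1)) := by ring

theorem bβ_le (he : 1 ≤ e) : bβ n e b ≤ 10 * (e ^ 2 * (b + e + Nat.log 2 (n + 1) + 1)) := by
  obtain ⟨l, hl⟩ : ∃ l, l = Nat.log 2 (n + 1) := ⟨_, rfl⟩
  obtain ⟨N, hN⟩ : ∃ N, N = b + e + l + 1 := ⟨_, rfl⟩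
  rw [bβ, bt, br, ← hl, ← hN]
  have h1 : (b + (l + 1) + 2 * e) ≤ 2 * N := by omega
  have h2 : l + 1 + 3 * e + b ≤ 3 * N := by omega
  have h3 : l + 1 + 3 * e + b + (b + (l + 1) + 2 * e) * e ≤ 5 * (N * e) := by
    have h4 : (b + (l + 1) + 2 * e) * e ≤ 2 * N * e := Nat.mul_le_mul_right _ h1
    have h5 : N ≤ N * e := Nat.le_mul_of_pos_right _ he
    nlinarith
  calc (l + 1 + 3 * e + b + (b + (l + 1) + 2 * e) * e) * (e + 1) ≤ 5 * (N * e) * (2 * e) :=
        Nat.mul_le_mul h3 (by omega)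
    _ = 10 * (e ^ 2 * N) := by ring

theorem final_le {β M d F : ℕ} (hM : 1 ≤ M) (hβ : β ≤ 10 * M)
    (h : F ≤ 216 * (β * 2 ^ d * (d + Nat.log 2 β + 1))) :
    F ≤ 10800 * (2 ^ d * (M * (d + Nat.log 2 M + 1))) := by
  have hlog : Nat.log 2 β ≤ Nat.log 2 M + 4 := by
    have h1 : Nat.log 2 (M * 2 ^ 4) = Nat.log 2 M + 4 := by
      rw [pow_succ, pow_succ, pow_succ, pow_succ, pow_zero, one_mul, ← mul_assoc, ← mul_assoc,
        ← mul_assoc, Nat.log_mul_base (by norm_num) (by omega),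
        Nat.log_mul_base (by norm_num) (by omega), Nat.log_mul_base (by norm_num) (by omega),
        Nat.log_mul_base (by norm_num) (by omega)]
    rw [← h1]
    exact Nat.log_mono_right (by omega)
  refine h.trans ?_
  calc 216 * (β * 2 ^ d * (d + Nat.log 2 β + 1)) ≤
        216 * (10 * M * 2 ^ d * (5 * (d + Nat.log 2 M + 1))) := by
        refine Nat.mul_le_mul_left _ (Nat.mul_le_mul (Nat.mul_le_mul_right _ hβ) ?_)
        omega
    _ = 10800 * (2 ^ d * (M * (d + Nat.log 2 M + 1))) := by ring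

theorem main (h : MReg n e b y P) {d : ℕ} (F : Finset ℚ[X])
    (hF : ∀ q ∈ F, q.Monic ∧ Irreducible q ∧ q.natDegree ≤ d ∧ q ∣ (y n).map ψ) :
    F.card ≤ 10800 * (2 ^ d * (e ^ 2 * (b + e + Nat.log 2 (n + 1) + 1) *
      (d + Nat.log 2 (e ^ 2 * (b + e + Nat.log 2 (n + 1) + 1)) + 1))) := by
  have he := h.e_pos
  obtain ⟨L, g, h1, h2, h3⟩ := h.reach.slp
  have hβ : 1 ≤ bβ n e b := by
    rw [bβ, bt]
    have : 0 < (Nat.log 2 (n + 1) + 1 + 3 * e + b + br n e b * e) * (e + 1) :=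
      Nat.mul_pos (by omega) (by omega)
    omega
  have h4 := all_degrees (β := bβ n e b) (d := d) h1 h2 (h.monic n le_rfl).1 hβ
    (fun k hk z hz => h3 k hk z hz) F hF
  refine final_le ?_ (bβ_le he) h4
  exact Nat.mul_pos (by positivity) (by omega)

end Pool.Agent.TH853.Fac
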