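import Mathlib

set_option autoImplicit false

/-!
# Differences of the roots of several integer polynomials

`q i`, `i < N`, are monic integer polynomials of degree `d` with roots `α i s`, `s < d`.
-/

namespace Pool.Agent.TH853.Fac

open Polynomial

/-- the embedding of `ℤ` in `ℂ` -/
noncomputable abbrev φ : ℤ →+* ℂ := Int.castRingHom ℂ

/-- the value product of an integer polynomial at the roots of a monic integer polynomial is an
integer -/
theorem prod_int {d : ℕ} {p : ℤ[X]} (β : Fin d → ℂ) (hp : p.map φ = ∏ s, (X - C (β s)))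
    (h : ℤ[X]) : ∃ r : ℤ, (r : ℂ) = ∏ s, (h.map φ).eval (β s) := by
  have hinj : Function.Injective φ := Int.cast_injective
  have hmon : (p.map φ).Monic := by
    rw [hp]
    exact monic_prod_of_monic _ _ fun s _ => monic_X_sub_C _
  have hpm : p.Monic := by
    have h1 : φ p.leadingCoeff = 1 := by
      rw [← leadingCoeff_map_of_injective hinj]
      exact hmon
    exact hinj (by rw [h1, map_one])
  have hroots : (p.map φ).roots = Finset.univ.val.map β := by
    rw [hp]
    have h1 : ∏ s, (X - C (β s)) = ((Finset.univ.val.map β).map fun a => X - C a).prod := by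
      rw [Multiset.map_map]
      rfl
    rw [h1, roots_multiset_prod_X_sub_C]
  have hsp : (p.map φ).Splits := by
    rw [hp]
    exact Splits.prod fun s _ => Splits.X_sub_C _
  have h2 := resultant_eq_prod_eval (p.map φ) (h.map φ) h.natDegree natDegree_map_le hsp
  rw [hmon.leadingCoeff, one_pow, one_mul, natDegree_map_eq_of_injective hinj,
    resultant_map_map, hroots, Multiset.map_map] at h2
  refine ⟨resultant p h p.natDegree h.natDegree, ?_⟩
  have h3 : ((resultant p h p.natDegree h.natDegree : ℤ) : ℂ) =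
      φ (resultant p h p.natDegree h.natDegree) := rfl
  rw [h3, h2]
  rfl

theorem prod_ge_one {d : ℕ} {p : ℤ[X]} (β : Fin d → ℂ) (hp : p.map φ = ∏ s, (X - C (β s)))
    (h : ℤ[X]) (h0 : ∀ s, (h.map φ).eval (β s) ≠ 0) : 1 ≤ ∏ s, ‖(h.map φ).eval (β s)‖ := by
  obtain ⟨r, hr⟩ := prod_int β hp h
  rw [← norm_prod, ← hr]
  have h1 : r ≠ 0 := by
    intro h2
    rw [h2, Int.cast_zero] at hr
    exact Finset.prod_ne_zero_iff.2 (fun s _ => h0 s) hr.symm
  rw [Complex.norm_intCast]
  exact_mod_cast Int.one_le_abs h1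

variable {N d : ℕ} {q : Fin N → ℤ[X]} {α : Fin N → Fin d → ℂ}

/-- different polynomials -/
theorem cross_ge_one (hq : ∀ i, (q i).map φ = ∏ s, (X - C (α i s))) {i j : Fin N}
    (hne : ∀ s t, α i s ≠ α j t) : 1 ≤ ∏ s, ∏ t, ‖α i s - α j t‖ := by
  have h1 : ∀ s, ∏ t, ‖α i s - α j t‖ = ‖((q j).map φ).eval (α i s)‖ := by
    intro s
    rw [hq j, eval_prod, norm_prod]
    simp
  simp_rw [h1]
  refine prod_ge_one (α i) (hq i) (q j) fun s => ?_
  rw [hq j, eval_prod]
  refine Finset.prod_ne_zero_iff.2 fun t _ => ?_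
  rw [eval_sub, eval_X, eval_C]
  exact sub_ne_zero.2 (hne s t)

/-- different polynomials with the same reduction modulo two -/
theorem cross_ge_two (hq : ∀ i, (q i).map φ = ∏ s, (X - C (α i s))) {i j : Fin N}
    (hne : ∀ s t, α i s ≠ α j t) (h2 : ∃ h : ℤ[X], q j = q i + C 2 * h) :
    2 ^ d ≤ ∏ s, ∏ t, ‖α i s - α j t‖ := by
  obtain ⟨h, hh⟩ := h2
  have h1 : ∀ s, ∏ t, ‖α i s - α j t‖ = 2 * ‖(h.map φ).eval (α i s)‖ := by
    intro s
    have h3 : ∏ t, ‖α i s - α j t‖ = ‖((q j).map φ).eval (α i s)‖ := by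
      rw [hq j, eval_prod, norm_prod]
      simp
    have h4 : ((q i).map φ).eval (α i s) = 0 := by
      rw [hq i, eval_prod]
      exact Finset.prod_eq_zero (Finset.mem_univ s) (by simp)
    rw [h3, hh, Polynomial.map_add, Polynomial.map_mul, map_C, eval_add, eval_mul, h4, zero_add,
      eval_C, norm_mul]
    congr 1
    have : (φ 2 : ℂ) = 2 := by simp [φ]
    rw [this]
    simp
  have h3 : 1 ≤ ∏ s, ‖(h.map φ).eval (α i s)‖ := by
    refine prod_ge_one (α i) (hq i) h fun s h0 => ?_
    have h4 := h1 s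
    rw [h0, norm_zero, mul_zero] at h4
    obtain ⟨t, _, ht⟩ := Finset.prod_eq_zero_iff.1 h4
    exact hne s t (sub_eq_zero.1 (norm_eq_zero.1 ht))
  simp_rw [h1]
  rw [Finset.prod_mul_distrib, Finset.prod_const, Finset.card_univ, Fintype.card_fin]
  exact le_mul_of_one_le_right (by positivity) h3

/-- one polynomial -/
theorem self_ge_one (hq : ∀ i, (q i).map φ = ∏ s, (X - C (α i s))) {i : Fin N}
    (hne : Function.Injective (α i)) :
    1 ≤ ∏ s, ∏ t ∈ Finset.univ.erase s, ‖α i s - α i t‖ := by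
  have h1 : ∀ s, ∏ t ∈ Finset.univ.erase s, ‖α i s - α i t‖ =
      ‖((derivative (q i)).map φ).eval (α i s)‖ := by
    intro s
    have h3 := Lagrange.eval_nodal_derivative_eval_node_eq (v := α i) (Finset.mem_univ s)
    have h4 : Lagrange.nodal Finset.univ (α i) = (q i).map φ := by
      rw [hq i]
      rfl
    rw [h4, derivative_map] at h3
    rw [h3, Lagrange.eval_nodal, norm_prod]
  simp_rw [h1]
  refine prod_ge_one (α i) (hq i) _ fun s h0 => ?_
  have h3 := h1 s
  rw [h0, norm_zero] at h3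
  obtain ⟨t, ht, ht0⟩ := Finset.prod_eq_zero_iff.1 h3
  have h4 := hne (sub_eq_zero.1 (norm_eq_zero.1 ht0))
  rw [h4] at ht
  exact Finset.ne_of_mem_erase ht rfl

/-- the product of all differences -/
noncomputable def diffs (α : Fin N → Fin d → ℂ) : ℝ :=
  ∏ a : Fin N × Fin d, ∏ b ∈ Finset.univ.erase a, ‖α a.1 a.2 - α b.1 b.2‖

theorem diffs_eq (α : Fin N → Fin d → ℂ) : diffs α =
    (∏ i, ∏ s, ∏ t ∈ Finset.univ.erase s, ‖α i s - α i t‖) *
      ∏ i, ∏ j ∈ Finset.univ.erase i, ∏ s, ∏ t, ‖α i s - α j t‖ := by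
  classical
  rw [diffs, Fintype.prod_prod_type, ← Finset.prod_mul_distrib]
  refine Finset.prod_congr rfl fun i _ => ?_
  have h1 : ∀ s : Fin d, ∏ b ∈ Finset.univ.erase (i, s), ‖α i s - α b.1 b.2‖ =
      (∏ t ∈ Finset.univ.erase s, ‖α i s - α i t‖) *
        ∏ j ∈ Finset.univ.erase i, ∏ t, ‖α i s - α j t‖ := by
    intro s
    have h2 : (Finset.univ.erase (i, s) : Finset (Fin N × Fin d)) =
        (({i} : Finset (Fin N)) ×ˢ (Finset.univ.erase s)) ∪
          ((Finset.univ.erase i) ×ˢ (Finset.univ : Finset (Fin d))) := by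
      ext ⟨j, t⟩
      simp only [Finset.mem_erase, Finset.mem_univ, Finset.mem_union, Finset.mem_product,
        Finset.mem_singleton, and_true, Prod.mk.injEq, ne_eq]
      constructor
      · intro h
        by_cases hj : j = i
        · exact Or.inl ⟨hj, fun ht => h ⟨hj, ht⟩⟩
        · exact Or.inr hj
      · rintro (⟨hj, ht⟩ | hj) ⟨h3, h4⟩
        · exact ht h4
        · exact hj h3
    have h3 : Disjoint (({i} : Finset (Fin N)) ×ˢ (Finset.univ.erase s))
          ((Finset.univ.erase i) ×ˢ (Finset.univ : Finset (Fin d))) := by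
      rw [Finset.disjoint_left]
      rintro ⟨j, t⟩ h4 h5
      simp only [Finset.mem_product, Finset.mem_singleton, Finset.mem_erase] at h4 h5
      exact h5.1.1 h4.1
    rw [h2, Finset.prod_union h3, Finset.prod_product, Finset.prod_product, Finset.prod_singleton]
  rw [Finset.prod_congr rfl fun s _ => h1 s, Finset.prod_mul_distrib]
  congr 1
  rw [Finset.prod_comm]

/-- the lower bound for the product of all differences: `w` counts ordered pairs of different
polynomials with the same reduction modulo two -/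
theorem diffs_ge (hq : ∀ i, (q i).map φ = ∏ s, (X - C (α i s)))
    (hinj : ∀ i j s t, α i s = α j t → i = j ∧ s = t)
    (w : Finset (Fin N × Fin N))
    (hw : ∀ a ∈ w, a.1 ≠ a.2 ∧ ∃ h : ℤ[X], q a.2 = q a.1 + C 2 * h) :
    (2 : ℝ) ^ (d * w.card) ≤ diffs α := by
  classical
  rw [diffs_eq]
  have h1 : (1 : ℝ) ≤ ∏ i, ∏ s, ∏ t ∈ Finset.univ.erase s, ‖α i s - α i t‖ := by
    have h2 : ∏ i : Fin N, (1 : ℝ) ≤ ∏ i, ∏ s, ∏ t ∈ Finset.univ.erase s, ‖α i s - α i t‖ :=
      Finset.prod_le_prod (fun _ _ => zero_le_one) fun i _ =>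
        self_ge_one hq fun s t h => (hinj i i s t h).2
    rwa [Finset.prod_const_one] at h2
  have hne : ∀ i j : Fin N, i ≠ j → ∀ s t, α i s ≠ α j t := fun i j hij s t h =>
    hij (hinj i j s t h).1
  have h2 : (2 : ℝ) ^ (d * w.card) ≤
      ∏ i, ∏ j ∈ Finset.univ.erase i, ∏ s, ∏ t, ‖α i s - α j t‖ := by
    have h3 : ∏ i : Fin N, ∏ j ∈ Finset.univ.erase i, (if (i, j) ∈ w then (2 : ℝ) ^ d else 1) ≤
        ∏ i, ∏ j ∈ Finset.univ.erase i, ∏ s, ∏ t, ‖α i s - α j t‖ := by
      refine Finset.prod_le_prod (fun i _ => Finset.prod_nonneg fun j _ => by positivity)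
        fun i _ => ?_
      refine Finset.prod_le_prod (fun j _ => by positivity) fun j hj => ?_
      have hij : i ≠ j := (Finset.ne_of_mem_erase hj).symm
      split_ifs with h
      · exact cross_ge_two hq (hne i j hij) (hw _ h).2
      · exact cross_ge_one hq (hne i j hij)
    refine le_trans (le_of_eq ?_) h3
    have h4 : ∀ i : Fin N, ∏ j ∈ Finset.univ.erase i, (if (i, j) ∈ w then (2 : ℝ) ^ d else 1) =
        ∏ j, (if (i, j) ∈ w then (2 : ℝ) ^ d else 1) := by
      intro i
      refine Finset.prod_erase _ ?_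
      rw [if_neg]
      intro h
      exact (hw _ h).1 rfl
    rw [Finset.prod_congr rfl fun i _ => h4 i, ← Fintype.prod_prod_type'
      (fun i j => if (i, j) ∈ w then (2 : ℝ) ^ d else 1), Finset.prod_ite_mem,
      Finset.univ_inter, Finset.prod_const, ← pow_mul]
  calc (2 : ℝ) ^ (d * w.card) = 1 * 2 ^ (d * w.card) := (one_mul _).symm
    _ ≤ _ := mul_le_mul h1 h2 (by positivity) (by linarith)

end Pool.Agent.TH853.Fac
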