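import Pool.Agent.TH853.Fac.Core
import Pool.Agent.TH853.Dag.Gates

set_option autoImplicit false

/-!
# Complex values of the results of a program with monic steps
-/

namespace Pool.Agent.TH853.Fac

open Polynomial Pool.Agent.H537R6 Pool.Agent.TH853.Reg Pool.Agent.TH853.Dag

variable {e b : ℕ}

theorem cval_sum (f : ℤ[X]) (z : ℂ) (N : ℕ) (h : f.natDegree < N) :
    aeval z f = ∑ j ∈ Finset.range N, ((f.coeff j : ℤ) : ℂ) * z ^ j := by
  rw [aeval_eq_sum_range' h]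
  refine Finset.sum_congr rfl fun j _ => ?_
  rw [zsmul_eq_mul]

theorem cval_step (P : ℤ[X][X]) (y : ℤ[X]) (z : ℂ) (N : ℕ) (h : P.natDegree < N) :
    aeval z (P.eval y) = ∑ i ∈ Finset.range N, aeval z (P.coeff i) * (aeval z y) ^ i := by
  rw [eval_eq_sum_range' h, map_sum]
  refine Finset.sum_congr rfl fun i _ => ?_
  rw [map_mul, map_pow]

theorem norm_coeff_le {H : ℕ} {f : ℤ[X]} (hf : CB H f) (j : ℕ) :
    ‖((f.coeff j : ℤ) : ℂ)‖ ≤ H := by
  rw [Complex.norm_intCast, ← Int.cast_abs, Int.abs_eq_natAbs]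
  exact_mod_cast hf j

/-- partial sums -/
theorem part_le {D H : ℕ} {f : ℤ[X]} (hf : CB H f) {z : ℂ} {R : ℝ} (hR : 1 ≤ R)
    (hz : ‖z‖ ≤ R) : ‖∑ j ∈ Finset.range (D + 1), ((f.coeff j : ℤ) : ℂ) * z ^ j‖ ≤
      ((D : ℝ) + 1) * H * R ^ D := by
  refine (norm_sum_le _ _).trans ?_
  have h1 : ∀ j ∈ Finset.range (D + 1), ‖((f.coeff j : ℤ) : ℂ) * z ^ j‖ ≤ H * R ^ D := by
    intro j hj
    rw [Finset.mem_range] at hj
    rw [norm_mul, norm_pow]
    exact mul_le_mul (norm_coeff_le hf j) ((pow_le_pow_left₀ (norm_nonneg _) hz j).trans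
      (pow_le_pow_right₀ hR (by omega))) (by positivity) (Nat.cast_nonneg _)
  have h2 := Finset.sum_le_card_nsmul _ _ _ h1
  rw [Finset.card_range, nsmul_eq_mul] at h2
  refine h2.trans (le_of_eq ?_)
  push_cast
  ring

theorem cval_le {D H : ℕ} {f : ℤ[X]} (hD : f.natDegree ≤ D) (hf : CB H f) {z : ℂ} {R : ℝ}
    (hR : 1 ≤ R) (hz : ‖z‖ ≤ R) : ‖aeval z f‖ ≤ ((D : ℝ) + 1) * H * R ^ D := by
  rw [cval_sum f z (D + 1) (by omega)]
  exact part_le hf hR hz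

theorem cval_ge {D H : ℕ} {f : ℤ[X]} (hm : f.Monic) (hD : f.natDegree = D + 1) (hf : CB H f)
    {z : ℂ} (hz : 1 ≤ ‖z‖) : ‖z‖ ^ D * (‖z‖ - ((D : ℝ) + 1) * H) ≤ ‖aeval z f‖ := by
  rw [cval_sum f z (D + 2) (by omega), Finset.sum_range_succ]
  have hlc : f.coeff (D + 1) = 1 := by
    rw [← hD]
    exact hm
  rw [hlc, Int.cast_one, one_mul]
  have h2 := part_le (D := D) hf hz le_rfl
  have h3 := norm_sub_norm_le (z ^ (D + 1))
    (-∑ j ∈ Finset.range (D + 1), ((f.coeff j : ℤ) : ℂ) * z ^ j)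
  rw [norm_neg, sub_neg_eq_add, add_comm (z ^ (D + 1)), norm_pow] at h3
  have h4 : ‖z‖ ^ (D + 1) = ‖z‖ ^ D * ‖z‖ := pow_succ _ _
  linarith

/-- a monic polynomial at a large argument -/
theorem monic_step {m : ℕ} (hm : 1 ≤ m) {a : ℕ → ℂ} {E : ℝ} {u : ℂ} (hE : 0 ≤ E)
    (ha : ∀ i < m, ‖a i‖ ≤ E) (ham : a m = 1) (hu : 1 ≤ ‖u‖) (huE : m * E ≤ ‖u‖) :
    ‖u‖ - m * E ≤ ‖∑ i ∈ Finset.range (m + 1), a i * u ^ i‖ := by
  obtain ⟨m', rfl⟩ : ∃ m', m = m' + 1 := ⟨m - 1, by omega⟩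
  rw [Finset.sum_range_succ, ham, one_mul]
  have h2 : ‖∑ i ∈ Finset.range (m' + 1), a i * u ^ i‖ ≤ ((m' + 1 : ℕ) : ℝ) * (E * ‖u‖ ^ m') := by
    refine (norm_sum_le _ _).trans ?_
    have h1 : ∀ i ∈ Finset.range (m' + 1), ‖a i * u ^ i‖ ≤ E * ‖u‖ ^ m' := by
      intro i hi
      rw [Finset.mem_range] at hi
      rw [norm_mul, norm_pow]
      exact mul_le_mul (ha i hi) (pow_le_pow_right₀ hu (by omega)) (by positivity) hE
    have h2 := Finset.sum_le_card_nsmul _ _ _ h1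
    rwa [Finset.card_range, nsmul_eq_mul] at h2
  have h3 := norm_sub_norm_le (u ^ (m' + 1))
    (-∑ i ∈ Finset.range (m' + 1), a i * u ^ i)
  rw [norm_neg, sub_neg_eq_add, add_comm (u ^ (m' + 1)), norm_pow] at h3
  have h4 : ‖u‖ ^ (m' + 1) = ‖u‖ ^ m' * ‖u‖ := pow_succ _ _
  have h5 : (1 : ℝ) ≤ ‖u‖ ^ m' := one_le_pow₀ hu
  have h6 : ‖u‖ - ((m' + 1 : ℕ) : ℝ) * E ≤ ‖u‖ ^ m' * (‖u‖ - ((m' + 1 : ℕ) : ℝ) * E) :=
    le_mul_of_one_le_left (by linarith) h5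
  nlinarith

/-- going back through a monic step -/
theorem monic_back {m e : ℕ} (hm : 1 ≤ m) (hme : m ≤ e) {a : ℕ → ℂ} {E : ℝ} {u : ℂ} (hE : 1 ≤ E)
    (ha : ∀ i < m, ‖a i‖ ≤ E) (ham : a m = 1) :
    ‖u‖ ≤ ‖∑ i ∈ Finset.range (m + 1), a i * u ^ i‖ + e * E := by
  have hm1 : (1 : ℝ) ≤ m := by exact_mod_cast hm
  have hme' : (m : ℝ) * E ≤ e * E :=
    mul_le_mul_of_nonneg_right (by exact_mod_cast hme) (by linarith)
  have h0 : (1 : ℝ) ≤ m * E := by nlinarith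
  by_cases h : (m : ℝ) * E ≤ ‖u‖
  · have h1 := monic_step hm (by linarith) ha ham (h0.trans h) h
    linarith
  · push Not at h
    have h1 := norm_nonneg (∑ i ∈ Finset.range (m + 1), a i * u ^ i)
    linarith

/-- values at most `2 ^ β` -/
def Sm (Z : Set ℂ) (β : ℕ) (f : ℤ[X]) : Prop := ∀ z ∈ Z, ‖aeval z f‖ ≤ 2 ^ β

theorem cast_succ_le (k : ℕ) : (k : ℝ) + 1 ≤ 2 ^ k := by
  have := self_le_two_pow k
  exact_mod_cast this

theorem short_val {ρ : ℕ} {z : ℂ} (hz : ‖z‖ ≤ 2 ^ ρ) {f : ℤ[X]}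
    (hd : f.natDegree ≤ e) (hf : CB (2 ^ b) f) : ‖aeval z f‖ ≤ 2 ^ (e + b + ρ * e) := by
  have h1 : (1 : ℝ) ≤ 2 ^ ρ := one_le_pow₀ (by norm_num)
  refine (cval_le hd hf h1 hz).trans ?_
  push_cast
  rw [pow_add, pow_add, pow_mul]
  have h2 := cast_succ_le e
  have h3 : (0 : ℝ) ≤ 2 ^ b * (2 ^ ρ) ^ e := by positivity
  nlinarith [mul_le_mul_of_nonneg_right h2 h3]

theorem short_sm {Z : Set ℂ} {ρ s : ℕ} (hZ : ∀ z ∈ Z, ‖z‖ ≤ 2 ^ ρ) {f : ℤ[X]}
    (hd : f.natDegree ≤ e) (hf : CB (2 ^ b) f) : Sm Z (bt e b ρ s) f := by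
  intro z hz
  refine (short_val (hZ z hz) hd hf).trans (pow_le_pow_right₀ (by norm_num) ?_)
  have h4 : (s + 3 * e + b + ρ * e) * 1 ≤ (s + 3 * e + b + ρ * e) * (e + 1) :=
    Nat.mul_le_mul_left _ (by omega)
  rw [bt]
  omega

theorem step_sm {Z : Set ℂ} {ρ s : ℕ} (hZ : ∀ z ∈ Z, ‖z‖ ≤ 2 ^ ρ) {v : ℤ[X]}
    (hv : ∀ z ∈ Z, ‖aeval z v‖ ≤ 2 ^ (s + 2 * e + b + ρ * e)) {R : ℤ[X][X]}
    (hR : R.natDegree ≤ e) (hC : CS e b R) : Sm Z (bt e b ρ s) (R.eval v) := by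
  intro z hz
  rw [cval_step R v z (e + 1) (by omega)]
  obtain ⟨A, hA⟩ : ∃ A : ℝ, A = 2 ^ (e + b + ρ * e) := ⟨_, rfl⟩
  obtain ⟨U, hU⟩ : ∃ U : ℝ, U = 2 ^ (s + 2 * e + b + ρ * e) := ⟨_, rfl⟩
  have hU1 : 1 ≤ U := hU ▸ one_le_pow₀ (by norm_num)
  have hA1 : 1 ≤ A := hA ▸ one_le_pow₀ (by norm_num)
  have h1 : ∀ i ∈ Finset.range (e + 1), ‖aeval z (R.coeff i) * (aeval z v) ^ i‖ ≤ A * U ^ e := by
    intro i hi
    rw [Finset.mem_range] at hi
    rw [norm_mul, norm_pow]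
    have h2 : ‖aeval z (R.coeff i)‖ ≤ A := hA ▸ short_val (hZ z hz) (hC i).1 (hC i).2
    have h3 : ‖aeval z v‖ ^ i ≤ U ^ e :=
      (pow_le_pow_left₀ (norm_nonneg _) (hU ▸ hv z hz) i).trans
        (pow_le_pow_right₀ hU1 (by omega))
    exact mul_le_mul h2 h3 (by positivity) (by linarith)
  have h2 := (norm_sum_le _ _).trans (Finset.sum_le_card_nsmul _ _ _ h1)
  rw [Finset.card_range, nsmul_eq_mul] at h2
  refine h2.trans ?_
  have h3 : ((e + 1 : ℕ) : ℝ) ≤ 2 ^ e := by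
    push_cast
    exact cast_succ_le e
  calc ((e + 1 : ℕ) : ℝ) * (A * U ^ e) ≤ 2 ^ e * (A * U ^ e) :=
        mul_le_mul_of_nonneg_right h3 (by positivity)
    _ = 2 ^ (e + (e + b + ρ * e) + (s + 2 * e + b + ρ * e) * e) := by
        rw [hA, hU, ← pow_mul, ← pow_add, ← pow_add]
        congr 1
        ring
    _ ≤ 2 ^ bt e b ρ s := by
        refine pow_le_pow_right₀ (by norm_num) ?_
        have h5 : (s + 2 * e + b + ρ * e) * e ≤ (s + 3 * e + b + ρ * e) * e :=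
          Nat.mul_le_mul_right _ (by omega)
        have h6 : bt e b ρ s = (s + 3 * e + b + ρ * e) * e + (s + 3 * e + b + ρ * e) := by
          rw [bt]
          ring
        omega

theorem short_reachC {Z : Set ℂ} {ρ s : ℕ} (he : 1 ≤ e) (hZ : ∀ z ∈ Z, ‖z‖ ≤ 2 ^ ρ) :
    ∀ (d : ℕ) (f : ℤ[X]), d ≤ e → f.natDegree ≤ d → CB (2 ^ b) f →
      Reach (Sm Z (bt e b ρ s)) f := by
  have hconst : ∀ a : ℤ, a.natAbs ≤ 2 ^ b → Reach (Sm Z (bt e b ρ s)) (C a) := by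
    intro a ha
    refine Reach.const a (short_sm hZ (by simp) ?_)
    intro j
    rw [coeff_C]
    split_ifs with h0
    · exact ha
    · simp
  have hX : Reach (Sm Z (bt e b ρ s)) X := by
    refine Reach.var (short_sm hZ (by simpa using he) ?_)
    intro j
    rw [coeff_X]
    split_ifs with h0
    · simpa using Nat.one_le_two_pow
    · simp
  intro d
  induction d with
  | zero =>
    intro f _ hf hC
    rw [eq_C_of_natDegree_le_zero hf]
    exact hconst _ (hC 0)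
  | succ d ih =>
    intro f hd hf hC
    have h1 : CB (2 ^ b) (divX f) := fun j => by
      rw [coeff_divX]
      exact hC (j + 1)
    have h2 : (divX f).natDegree ≤ d := by
      rw [natDegree_divX_eq_natDegree_tsub_one]
      omega
    have h3 := ih (divX f) (by omega) h2 h1
    have h4 : Reach (Sm Z (bt e b ρ s)) (divX f * X) := by
      refine Reach.mul _ _ h3 hX (short_sm hZ ?_ ?_)
      · refine natDegree_mul_le.trans ?_
        rw [natDegree_X]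
        omega
      · intro j
        cases j with
        | zero => simp
        | succ j =>
          rw [coeff_mul_X]
          exact h1 j
    have h5 : f = divX f * X + C (f.coeff 0) := (divX_mul_X_add f).symm
    rw [h5]
    refine Reach.add _ _ h4 (hconst _ (hC 0)) ?_
    rw [← h5]
    exact short_sm hZ (by omega) hC

theorem step_reachC {Z : Set ℂ} {ρ s : ℕ} (he : 1 ≤ e) (hZ : ∀ z ∈ Z, ‖z‖ ≤ 2 ^ ρ)
    {v : ℤ[X]} (hv : ∀ z ∈ Z, ‖aeval z v‖ ≤ 2 ^ (s + 2 * e + b + ρ * e))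
    (hr : Reach (Sm Z (bt e b ρ s)) v) :
    ∀ (d : ℕ) (R : ℤ[X][X]), d ≤ e → R.natDegree ≤ d → CS e b R →
      Reach (Sm Z (bt e b ρ s)) (R.eval v) := by
  intro d
  induction d with
  | zero =>
    intro R _ hR hC
    rw [eq_C_of_natDegree_le_zero hR, eval_C]
    exact short_reachC he hZ e _ le_rfl (hC 0).1 (hC 0).2
  | succ d ih =>
    intro R hd hR hC
    have h1 : CS e b (divX R) := fun j => by
      rw [coeff_divX]
      exact hC (j + 1)
    have h2 : (divX R).natDegree ≤ d := by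
      rw [natDegree_divX_eq_natDegree_tsub_one]
      omega
    have h3 := ih (divX R) (by omega) h2 h1
    have h4 : Reach (Sm Z (bt e b ρ s)) ((divX R).eval v * v) := by
      refine Reach.mul _ _ h3 hr ?_
      have h5 : (divX R).eval v * v = (divX R * X).eval v := by rw [eval_mul, eval_X]
      rw [h5]
      refine step_sm hZ hv ?_ ?_
      · refine natDegree_mul_le.trans ?_
        rw [natDegree_X]
        omega
      · intro j
        cases j with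
        | zero =>
          simp only [mul_coeff_zero, coeff_X_zero, mul_zero, natDegree_zero]
          exact ⟨Nat.zero_le _, fun j => by simp⟩
        | succ j =>
          rw [coeff_mul_X]
          exact h1 j
    have h5 : R.eval v = (divX R).eval v * v + R.coeff 0 := by
      conv_lhs => rw [← divX_mul_X_add R]
      rw [eval_add, eval_mul, eval_X, eval_C]
    rw [h5]
    refine Reach.add _ _ h4 (short_reachC he hZ e _ le_rfl (hC 0).1 (hC 0).2) ?_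
    rw [← h5]
    exact step_sm hZ hv (by omega) hC

end Pool.Agent.TH853.Fac
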