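import Pool.Agent.TH853.Fac.Res

set_option autoImplicit false

/-!
# Vandermonde determinants and the upper bound
-/

namespace Pool.Agent.TH853.Fac

open Polynomial

theorem prod_pairs {D : ℕ} (v : Fin D → ℂ) :
    ∏ k, ∏ l ∈ Finset.univ.erase k, ‖v k - v l‖ = ‖(Matrix.vandermonde v).det‖ ^ 2 := by
  classical
  have h1 : ∀ k : Fin D, ∏ l ∈ Finset.univ.erase k, ‖v k - v l‖ =
      (∏ l ∈ Finset.Ioi k, ‖v l - v k‖) * ∏ l ∈ Finset.Iio k, ‖v k - v l‖ := by
    intro k
    have h2 : (Finset.univ.erase k : Finset (Fin D)) = Finset.Ioi k ∪ Finset.Iio k := by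
      ext l
      simp only [Finset.mem_erase, Finset.mem_univ, and_true, Finset.mem_union, Finset.mem_Ioi,
        Finset.mem_Iio]
      constructor
      · intro h
        rcases lt_or_gt_of_ne h with h3 | h3
        · exact Or.inr h3
        · exact Or.inl h3
      · rintro (h | h)
        · exact h.ne'
        · exact h.ne
    have h3 : Disjoint (Finset.Ioi k) (Finset.Iio k) := by
      rw [Finset.disjoint_left]
      intro l h4 h5
      rw [Finset.mem_Ioi] at h4
      rw [Finset.mem_Iio] at h5
      exact absurd h4 (not_lt.2 h5.le)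
    rw [h2, Finset.prod_union h3]
    congr 1
    exact Finset.prod_congr rfl fun l _ => norm_sub_rev _ _
  rw [Finset.prod_congr rfl fun k _ => h1 k, Finset.prod_mul_distrib]
  have h2 : ∏ k, ∏ l ∈ Finset.Iio k, ‖v k - v l‖ = ∏ k, ∏ l ∈ Finset.Ioi k, ‖v l - v k‖ := by
    refine Finset.prod_comm' ?_
    intro x y
    simp
  rw [h2, Matrix.det_vandermonde, norm_prod, sq]
  congr 1 <;>
  · refine Finset.prod_congr rfl fun k _ => ?_
    rw [norm_prod]

theorem diffs_vand {N d : ℕ} (α : Fin N → Fin d → ℂ) :
    diffs α = ‖(Matrix.vandermonde fun k : Fin (N * d) =>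
      α (finProdFinEquiv.symm k).1 (finProdFinEquiv.symm k).2).det‖ ^ 2 := by
  classical
  rw [← prod_pairs, diffs]
  symm
  refine Fintype.prod_equiv finProdFinEquiv.symm _ _ fun k => ?_
  refine Finset.prod_equiv finProdFinEquiv.symm (fun l => ?_) fun l _ => rfl
  simp only [Finset.mem_erase, Finset.mem_univ, and_true, ne_eq, EmbeddingLike.apply_eq_iff_eq]

/-- upper bound for the Vandermonde determinant -/
theorem vand_le {D : ℕ} (v : Fin D → ℂ) (P : ℕ → ℂ[X]) {c : ℝ}
    (hdeg : ∀ m < D, (P m).natDegree = m) (hlc : ∀ m < D, 1 ≤ ‖(P m).leadingCoeff‖)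
    (hval : ∀ m < D, ∀ k, ‖(P m).eval (v k)‖ ≤ c) :
    ‖(Matrix.vandermonde v).det‖ ≤ D.factorial * c ^ D := by
  have h1 := Matrix.det_eval_matrixOfPolynomials_eq_det_vandermonde v
    (fun m => C ((P m).leadingCoeff)⁻¹ * P m) (fun m => by
      have h2 := hlc m m.2
      have h3 : (P m).leadingCoeff ≠ 0 := by
        intro h4
        rw [h4, norm_zero] at h2
        linarith
      rw [natDegree_C_mul (inv_ne_zero h3)]
      exact hdeg m m.2) (fun m => by
      have h2 := hlc m m.2
      have h3 : (P m).leadingCoeff ≠ 0 := by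
        intro h4
        rw [h4, norm_zero] at h2
        linarith
      rw [Monic, leadingCoeff_mul, leadingCoeff_C, inv_mul_cancel₀ h3])
  rw [h1]
  have h2 := Matrix.det_le (abv := (NormedField.toAbsoluteValue ℂ)) (x := c)
    (A := Matrix.of fun (i : Fin D) (j : Fin D) =>
      (C ((P j).leadingCoeff)⁻¹ * P j).eval (v i)) (by
      intro i j
      have h3 := hlc j j.2
      change ‖(C ((P j).leadingCoeff)⁻¹ * P j).eval (v i)‖ ≤ c
      rw [eval_mul, eval_C, norm_mul, norm_inv]
      have h4 := hval j j.2 i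
      calc ‖(P j).leadingCoeff‖⁻¹ * ‖(P j).eval (v i)‖ ≤ 1 * ‖(P j).eval (v i)‖ :=
            mul_le_mul_of_nonneg_right (inv_le_one_of_one_le₀ h3) (norm_nonneg _)
        _ ≤ c := by rw [one_mul]; exact h4)
  rw [Fintype.card_fin, nsmul_eq_mul] at h2
  exact h2

/-- pairs of polynomials with the same reduction -/
theorem pairs_card {N : ℕ} {κ : Type} [Fintype κ] [DecidableEq κ] (cl : Fin N → κ) :
    N ^ 2 ≤ Fintype.card κ *
      ((Finset.univ.filter fun a : Fin N × Fin N => a.1 ≠ a.2 ∧ cl a.1 = cl a.2).card + N) := by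
  classical
  have h1 : ∑ c : κ, (Finset.univ.filter fun i => cl i = c).card = N := by
    have := Finset.card_eq_sum_card_fiberwise (s := (Finset.univ : Finset (Fin N)))
      (t := (Finset.univ : Finset κ)) (f := cl) (fun i _ => Finset.mem_univ _)
    rw [← this, Finset.card_univ, Fintype.card_fin]
  have h2 : ∑ c : κ, (Finset.univ.filter fun i => cl i = c).card ^ 2 =
      (Finset.univ.filter fun a : Fin N × Fin N => cl a.1 = cl a.2).card := by
    have := Finset.card_eq_sum_card_fiberwise
      (s := (Finset.univ.filter fun a : Fin N × Fin N => cl a.1 = cl a.2))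
      (t := (Finset.univ : Finset κ)) (f := fun a => cl a.1) (fun i _ => Finset.mem_univ _)
    rw [this]
    refine Finset.sum_congr rfl fun c _ => ?_
    have h3 : ((Finset.univ.filter fun a : Fin N × Fin N => cl a.1 = cl a.2).filter
        fun a => cl a.1 = c) =
        (Finset.univ.filter fun i => cl i = c) ×ˢ (Finset.univ.filter fun i => cl i = c) := by
      ext ⟨i, j⟩
      simp only [Finset.mem_filter, Finset.mem_univ, true_and, Finset.mem_product]
      constructor
      · rintro ⟨h4, h5⟩
        exact ⟨h5, h4 ▸ h5⟩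
      · rintro ⟨h4, h5⟩
        exact ⟨h4.trans h5.symm, h4⟩
    rw [h3, Finset.card_product, sq]
  have h3 : (Finset.univ.filter fun a : Fin N × Fin N => cl a.1 = cl a.2).card ≤
      (Finset.univ.filter fun a : Fin N × Fin N => a.1 ≠ a.2 ∧ cl a.1 = cl a.2).card + N := by
    have h4 : (Finset.univ.filter fun a : Fin N × Fin N => cl a.1 = cl a.2) ⊆
        (Finset.univ.filter fun a : Fin N × Fin N => a.1 ≠ a.2 ∧ cl a.1 = cl a.2) ∪
          Finset.univ.image (fun i : Fin N => (i, i)) := by
      rintro ⟨i, j⟩ h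
      rw [Finset.mem_filter] at h
      rw [Finset.mem_union]
      by_cases hij : i = j
      · right
        rw [Finset.mem_image]
        exact ⟨i, Finset.mem_univ _, by rw [hij]⟩
      · left
        rw [Finset.mem_filter]
        exact ⟨Finset.mem_univ _, hij, h.2⟩
    refine (Finset.card_le_card h4).trans ((Finset.card_union_le _ _).trans ?_)
    refine Nat.add_le_add_left ?_ _
    refine Finset.card_image_le.trans ?_
    rw [Finset.card_univ, Fintype.card_fin]
  have h4 := sq_sum_le_card_mul_sum_sq (s := (Finset.univ : Finset κ))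
    (f := fun c => (Finset.univ.filter fun i => cl i = c).card)
  rw [h1, h2, Finset.card_univ] at h4
  exact h4.trans (Nat.mul_le_mul_left _ h3)

/-- polynomials with the same reduction modulo two -/
theorem same_red {d : ℕ} {f g : ℤ[X]} (hf : f.Monic) (hg : g.Monic) (hfd : f.natDegree = d)
    (hgd : g.natDegree = d) (h : ∀ s : Fin d, (f.coeff s : ZMod 2) = (g.coeff s : ZMod 2)) :
    ∃ r : ℤ[X], g = f + C 2 * r := by
  have h1 : C (2 : ℤ) ∣ g - f := by
    rw [C_dvd_iff_dvd_coeff]
    intro k
    rw [coeff_sub]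
    rcases lt_trichotomy k d with hk | hk | hk
    · have h2 := h ⟨k, hk⟩
      have h3 : ((g.coeff k - f.coeff k : ℤ) : ZMod 2) = 0 := by
        push_cast
        rw [sub_eq_zero]
        exact h2.symm
      have h4 := (ZMod.intCast_zmod_eq_zero_iff_dvd _ 2).1 h3
      exact_mod_cast h4
    · have h2 : f.coeff k = 1 := by
        rw [hk, ← hfd]
        exact hf
      have h3 : g.coeff k = 1 := by
        rw [hk, ← hgd]
        exact hg
      rw [h2, h3, sub_self]
      exact dvd_zero _
    · rw [coeff_eq_zero_of_natDegree_lt (by omega), coeff_eq_zero_of_natDegree_lt (by omega),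
        sub_self]
      exact dvd_zero _
  obtain ⟨r, hr⟩ := h1
  exact ⟨r, by rw [← hr]; ring⟩

end Pool.Agent.TH853.Fac
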